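import Pool.Agent.TH780.OG.RamCore

/-!
# The Gyárfás–Sumner conjecture in Ramsey form, for all graphs

If `χ(H) ≤ c`, then Ramsey's theorem, applied to the colouring of the `k`-subsets `x` of a large set
by the colour of `φ x`, shows that every map `φ` from the `k`-subsets of an `N`-set to the vertices of
`H` maps the `k`-subsets of some `n`-set to an independent set, if `N` is large in terms of `k`, `n`
and `c`. The Gyárfás–Sumner conjecture therefore implies that for every forest `F` and every graph
`H` without induced `F` this holds as soon as `N` is large in terms of `k`, `n`, `F` and `ω(H)`. This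
consequence is proved here, for all finite graphs `H` and all forests `F`.

In other words, the conjecture holds for graphs whose large chromatic number is due to Ramsey's
theorem. For example, if a graph `H` contains (as a not necessarily induced subgraph, or as a
homomorphic image) a large shift graph on `k`-subsets, or a large type graph, then `H` contains a
large clique or `F` as an induced subgraph; and every order-invariant graph on the `k`-subsets of
`Fin N` (any set of types of pairs being adjacent) without induced `F` has `χ ≤ f(ω)`.

Idea. By Ramsey's theorem one may assume that the adjacency of `φ x` and `φ y` depends only on the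
order type of the pair `(x, y)`. If one of the adjacent types admits long chains, there is a large
clique. Otherwise one chooses among all adjacent pairs one, `(a, b)`, for which `b` occupies the
smallest number of cells of `a` (the entries of `a` and the gaps between them) and builds a tree
depth-first, each new vertex being placed by the type of `(a, b)` immediately to the right of its
parent. Because the type has no long chains, a new vertex occupies fewer cells of the older vertices
(or conversely), except for its parent and its siblings, and siblings are in homogeneous position.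
-/

namespace Pool.Agent.TH780.OG

open Pool.Agent.TH780.TG

lemma cliqueFree_succ' {V : Type} [Finite V] (G : SimpleGraph V) {w : ℕ} (h : G.cliqueNum ≤ w) :
    G.CliqueFree (w + 1) := by
  intro s hs
  have h1 := hs.isClique.card_le_cliqueNum
  rw [hs.card_eq] at h1
  omega

theorem ramsey_form (k n m : ℕ) (F : SimpleGraph (Fin m)) (hF : F.IsAcyclic) :
    ∃ f : ℕ → ℕ, ∀ (V : Type) [Finite V] (H : SimpleGraph V), ¬ F.IsIndContained H →
      ∀ N : ℕ, f H.cliqueNum ≤ N → ∀ φ : Finset (Fin N) → V,
        ∃ A : Finset (Fin N), A.card = n ∧
          ∀ x ⊆ A, ∀ y ⊆ A, x.card = k → y.card = k → ¬ H.Adj (φ x) (φ y) := by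
  classical
  choose f hf using fun w => ram_core.{0} k w n m
  refine ⟨f, fun V _ H hFH N hN φ => ?_⟩
  obtain ⟨T, hT, ⟨θ⟩⟩ := Pool.Agent.H367R3.forest_in_tree F hF
  obtain ⟨b, hb1, hb2⟩ := tree_in_binom m (Fin (m + 1)) T hT (Fintype.card_fin _)
  have hB : ¬ ∃ g : BV m → V, Function.Injective g ∧ ∀ s t, H.Adj (g s) (g t) ↔ badj m s t := by
    rintro ⟨g, hg1, hg2⟩
    apply hFH
    refine ⟨⟨⟨fun s => g (b (θ s)), fun s t hst => θ.injective (hb1 (hg1 hst))⟩, ?_⟩⟩
    intro s t
    show H.Adj (g (b (θ s))) (g (b (θ t))) ↔ F.Adj s t
    rw [hg2, hb2, θ.map_adj_iff]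
  obtain ⟨e, he1, he2, he3⟩ := hf H.cliqueNum V H (cliqueFree_succ' H le_rfl) hB
    fun t => φ (Finset.univ.filter fun z : Fin N => ∃ i, (z : ℕ) = t i)
  have he2' : ∀ i, e i < N := fun i => (he2 i).trans_le hN
  let ε : Fin n → Fin N := fun i => ⟨e i, he2' i⟩
  have hε : StrictMono ε := fun i j hij => he1 hij
  refine ⟨Finset.univ.image ε, ?_, ?_⟩
  · rw [Finset.card_image_of_injective _ hε.injective, Finset.card_univ, Fintype.card_fin]
  · have key : ∀ x ⊆ Finset.univ.image ε, x.card = k → ∃ X : Fin k → Fin n, StrictMono X ∧
        (Finset.univ.filter fun z : Fin N => ∃ i, (z : ℕ) = e (X i)) = x := by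
      intro x hx hxk
      have h1 : ∀ j : Fin k, ∃ i : Fin n, ε i = x.orderEmbOfFin hxk j := by
        intro j
        obtain ⟨i, -, hi⟩ := Finset.mem_image.1 (hx (x.orderEmbOfFin_mem hxk j))
        exact ⟨i, hi⟩
      choose X hX using h1
      refine ⟨X, ?_, ?_⟩
      · intro i j hij
        rw [← hε.lt_iff_lt, hX, hX]
        exact (x.orderEmbOfFin hxk).strictMono hij
      · ext z
        rw [Finset.mem_filter]
        constructor
        · rintro ⟨-, i, hi⟩
          have h2 : z = x.orderEmbOfFin hxk i := by
            rw [← hX]
            exact Fin.ext hi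
          rw [h2]
          exact x.orderEmbOfFin_mem hxk i
        · intro hz
          refine ⟨Finset.mem_univ _, ?_⟩
          have h2 : z ∈ Set.range (x.orderEmbOfFin hxk) := by
            rw [Finset.range_orderEmbOfFin]
            exact hz
          obtain ⟨i, hi⟩ := h2
          refine ⟨i, ?_⟩
          rw [← hi, ← hX]
    intro x hx y hy hxk hyk hadj
    obtain ⟨X, hX1, hX2⟩ := key x hx hxk
    obtain ⟨Y, hY1, hY2⟩ := key y hy hyk
    apply he3 X Y hX1 hY1
    show H.Adj (φ (Finset.univ.filter fun z : Fin N => ∃ i, (z : ℕ) = e (X i)))
      (φ (Finset.univ.filter fun z : Fin N => ∃ i, (z : ℕ) = e (Y i)))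
    rw [hX2, hY2]
    exact hadj

end Pool.Agent.TH780.OG
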