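import Mathlib

/-!
# Binomial trees contain all finite trees
-/

set_option autoImplicit false

namespace Pool.Agent.TH780.OG

/-- vertices of the binomial tree -/
def BV : ℕ → Type
  | 0 => Unit
  | h + 1 => BV h ⊕ BV h

/-- the root -/
def root : (h : ℕ) → BV h
  | 0 => ()
  | h + 1 => Sum.inl (root h)

/-- adjacency in the binomial tree: two copies with adjacent roots -/
def badj : (h : ℕ) → BV h → BV h → Prop
  | 0, _, _ => False
  | h + 1, Sum.inl u, Sum.inl v => badj h u v
  | h + 1, Sum.inr u, Sum.inr v => badj h u v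
  | h + 1, Sum.inl u, Sum.inr v => u = root h ∧ v = root h
  | h + 1, Sum.inr u, Sum.inl v => u = root h ∧ v = root h

lemma badj_symm : ∀ (h : ℕ) (u v : BV h), badj h u v → badj h v u := by
  intro h
  induction h with
  | zero => exact fun _ _ h => h
  | succ h ih =>
    rintro (u | u) (v | v) h1
    · exact ih u v h1
    · exact ⟨h1.2, h1.1⟩
    · exact ⟨h1.2, h1.1⟩
    · exact ih u v h1

/-- every vertex gets a new pendant neighbour in the next binomial tree -/
lemma pendant : ∀ h : ℕ, ∃ (ι : BV h → BV (h + 1)) (l : BV h → BV (h + 1)),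
    Function.Injective ι ∧ (∀ v w, l v ≠ ι w) ∧ ι (root h) = root (h + 1) ∧
    (∀ v w, badj (h + 1) (ι v) (ι w) ↔ badj h v w) ∧
    ∀ v w, badj (h + 1) (l v) (ι w) ↔ v = w := by
  intro h
  induction h with
  | zero =>
    refine ⟨fun _ => Sum.inl (), fun _ => Sum.inr (), ?_, ?_, rfl, ?_, ?_⟩
    · intro v w _
      exact Subsingleton.elim (α := Unit) v w
    · intro v w h
      exact absurd h (by simp)
    · intro v w
      exact Iff.rfl
    · intro v w
      exact iff_of_true ⟨rfl, rfl⟩ (Subsingleton.elim (α := Unit) v w)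
  | succ h ih =>
    obtain ⟨ι, l, h1, h2, h3, h4, h5⟩ := ih
    refine ⟨Sum.map ι ι, Sum.map l l, ?_, ?_, ?_, ?_, ?_⟩
    · exact Sum.map_injective.2 ⟨h1, h1⟩
    · rintro (v | v) (w | w) h6
      · exact h2 v w (Sum.inl_injective h6)
      · exact absurd h6 (by simp)
      · exact absurd h6 (by simp)
      · exact h2 v w (Sum.inr_injective h6)
    · show Sum.inl (ι (root h)) = Sum.inl (root (h + 1))
      rw [h3]
    · have h6 : ∀ v, ι v = root (h + 1) ↔ v = root h := by
        intro v
        rw [← h3]
        exact h1.eq_iff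
      rintro (v | v) (w | w)
      · exact h4 v w
      · show (ι v = root (h + 1) ∧ ι w = root (h + 1)) ↔ (v = root h ∧ w = root h)
        rw [h6, h6]
      · show (ι v = root (h + 1) ∧ ι w = root (h + 1)) ↔ (v = root h ∧ w = root h)
        rw [h6, h6]
      · exact h4 v w
    · have h6 : ∀ v, l v ≠ root (h + 1) := by
        intro v
        rw [← h3]
        exact h2 v _
      rintro (v | v) (w | w)
      · refine (h5 v w).trans ?_
        exact (Sum.inl_injective.eq_iff (a := v) (b := w)).symm
      · refine iff_of_false (fun h7 => h6 v h7.1) (by simp)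
      · refine iff_of_false (fun h7 => h6 v h7.1) (by simp)
      · refine (h5 v w).trans ?_
        exact (Sum.inr_injective.eq_iff (a := v) (b := w)).symm

lemma badj_irrefl : ∀ (h : ℕ) (u : BV h), ¬ badj h u u := by
  intro h
  induction h with
  | zero => exact fun _ h => h
  | succ h ih =>
    rintro (u | u)
    · exact ih u
    · exact ih u

/-- every finite tree is an induced subgraph of a binomial tree -/
theorem tree_in_binom : ∀ (n : ℕ) (V : Type) [Fintype V] [DecidableEq V] (T : SimpleGraph V),
    T.IsTree → Fintype.card V = n + 1 → ∃ f : V → BV n, Function.Injective f ∧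
      ∀ v w, badj n (f v) (f w) ↔ T.Adj v w := by
  intro n
  induction n with
  | zero =>
    intro V _ _ T hT hV
    have hsub : Subsingleton V := by
      rw [← Fintype.card_le_one_iff_subsingleton]
      omega
    refine ⟨fun _ => (), fun v w _ => Subsingleton.elim v w, ?_⟩
    intro v w
    refine iff_of_false (fun h => h) ?_
    intro h
    exact h.ne (Subsingleton.elim v w)
  | succ n ih =>
    intro V _ _ T hT hV
    classical
    have hnt : Nontrivial V := by
      rw [← Fintype.one_lt_card_iff_nontrivial]
      omega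
    obtain ⟨e, hl⟩ := hT.exists_vert_degree_one_of_nontrivial
    have hconn := hT.connected.induce_compl_singleton_of_degree_eq_one hl
    have hT' : (T.induce ({e}ᶜ : Set V)).IsTree := ⟨hconn, hT.isAcyclic.induce _⟩
    obtain ⟨u, hu, huu⟩ := SimpleGraph.degree_eq_one_iff_existsUnique_adj.1 hl
    have hu' : u ∈ ({e}ᶜ : Set V) := fun h => hu.ne h.symm
    have hcard : Fintype.card ({e}ᶜ : Set V) = n + 1 := by
      rw [Fintype.card_compl_set, hV]
      simp
    obtain ⟨f, hf1, hf2⟩ := ih _ (T.induce ({e}ᶜ : Set V)) hT' hcard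
    obtain ⟨ι, l, h1, h2, -, h4, h5⟩ := pendant n
    have hmem : ∀ v, v ≠ e → v ∈ ({e}ᶜ : Set V) := fun v h => h
    let g : V → BV (n + 1) := fun v => if h : v = e then l (f ⟨u, hu'⟩) else ι (f ⟨v, hmem v h⟩)
    have hgl : g e = l (f ⟨u, hu'⟩) := by
      simp only [g]
      rw [dif_pos trivial]
    have hg : ∀ v (h : v ≠ e), g v = ι (f ⟨v, hmem v h⟩) := by
      intro v h
      simp only [g]
      rw [dif_neg h]
    have hlw : ∀ w, w ≠ e → (badj (n + 1) (g e) (g w) ↔ T.Adj e w) := by
      intro w hw
      rw [hgl, hg w hw, h5, hf1.eq_iff, Subtype.mk.injEq]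
      constructor
      · rintro rfl
        exact hu
      · intro h
        exact (huu w h).symm
    refine ⟨g, ?_, ?_⟩
    · intro v w hvw
      by_cases hv : v = e
      · by_cases hw : w = e
        · rw [hv, hw]
        · rw [hv, hgl, hg w hw] at hvw
          exact absurd hvw (h2 _ _)
      · by_cases hw : w = e
        · rw [hw, hgl, hg v hv] at hvw
          exact absurd hvw.symm (h2 _ _)
        · rw [hg v hv, hg w hw] at hvw
          exact congrArg Subtype.val (hf1 (h1 hvw))
    · intro v w
      by_cases hv : v = e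
      · subst hv
        by_cases hw : w = v
        · subst hw
          exact iff_of_false (badj_irrefl _ _) (fun h => h.ne rfl)
        · exact hlw w hw
      · by_cases hw : w = e
        · subst hw
          rw [T.adj_comm, ← hlw v hv]
          exact ⟨badj_symm _ _ _, badj_symm _ _ _⟩
        · rw [hg v hv, hg w hw, h4, hf2]
          exact Iff.rfl

end Pool.Agent.TH780.OG
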