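import Pool.Agent.TH780.OG.Near
import Pool.Agent.TH780.OG.Binom

/-!
# Depth-first placement of binomial trees
-/

set_option autoImplicit false

namespace Pool.Agent.TH780.OG

open Pool.Agent.TH780.TG

variable {k : ℕ}

/-- a relation on tuples with a pair `(a, b)` which has the smallest number of cells -/
structure Rel (R : (Fin k → ℚ) → (Fin k → ℚ) → Prop) (a b : Fin k → ℚ) : Prop where
  ha : StrictMono a
  hb : StrictMono b
  rab : ∀ x y, StrictMono x → StrictMono y → ST a b x y → R x y
  nhom : ¬ Hom a b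
  symm : ∀ x y, R x y → R y x
  min : ∀ x y, StrictMono x → StrictMono y → x ≠ y → R x y → cells a b ≤ cells x y
  hom : ∀ x y, StrictMono x → StrictMono y → x ≠ y → R x y → ¬ Hom x y

lemma exists_fresh {a b : Fin k → ℚ} (ha : StrictMono a) (hb : StrictMono b) (h : ¬ Hom a b) :
    ∃ j, Fresh a b j := by
  by_contra hcon
  have hex : ∀ j, ex a b j := by
    intro j
    by_contra h1
    exact hcon ⟨j, fun i hi => h1 ⟨i, hi⟩⟩
  have hinj : ∀ m m', top a b m = top a b m' → m = m' := by
    intro m m' hm
    rcases h1 : top a b m with _ | i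
    · exact absurd (hex m) (not_ex_of_none h1)
    · have h2 : top a b m' = some i := hm ▸ h1
      have h3 := exact_top ha h1 (hex m)
      have h4 := exact_top ha h2 (hex m')
      exact hb.injective (h3.symm.trans h4)
  obtain ⟨j, j', h1, h2, -⟩ := collision ha hb h
  apply h1
  rcases h3 : top a b j with _ | i
  · exact absurd (hex j) (not_ex_of_none h3)
  · rcases h4 : top a b j' with _ | i'
    · exact absurd (hex j') (not_ex_of_none h4)
    · rw [h3, h4] at h2
      have h5 : top a b i = top a b i' := h2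
      rw [hinj i i' h5]
      exact ⟨rfl, iff_of_true (hex j) (hex j')⟩

lemma near_not_mem {a b x y : Fin k → ℚ} {S : Finset (Fin k → ℚ)} (ha : StrictMono a)
    (hb : StrictMono b) (h : ¬ Hom a b) (hy : Near a b x y (vals S)) : y ∉ S := by
  intro hS
  obtain ⟨j, hj⟩ := exists_fresh ha hb h
  refine absurd (hy.imm j hj (y j) (mem_vals hS j) ?_) (lt_irrefl _)
  intro l hl
  exact (hy.st l j).1.2 hl

lemma bv_finite : ∀ h : ℕ, Finite (BV h) := by
  intro h
  induction h with
  | zero => exact inferInstanceAs (Finite Unit)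
  | succ h ih => exact inferInstanceAs (Finite (BV h ⊕ BV h))

theorem dfs {R : (Fin k → ℚ) → (Fin k → ℚ) → Prop} {a b : Fin k → ℚ} (hR : Rel R a b) :
    ∀ (h : ℕ) (S : Finset (Fin k → ℚ)), (∀ s ∈ S, StrictMono s) → ∀ x ∈ S,
      (∀ u ∈ S, u ≠ x → Coll a b u x) →
      ∃ f : BV h → Fin k → ℚ, f (root h) = x ∧ (∀ t, StrictMono (f t)) ∧
        Function.Injective f ∧ (∀ t, t ≠ root h → f t ∉ S) ∧
        (∀ t t', t ≠ t' → (R (f t) (f t') ↔ badj h t t')) ∧
        (∀ u ∈ S, u ≠ x → ∀ t, t ≠ root h → cells u (f t) < cells a b) ∧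
        (∀ t, t ≠ root h → (badj h (root h) t ∧ ST a b x (f t)) ∨
          (¬ badj h (root h) t ∧ cells x (f t) < cells a b)) := by
  classical
  intro h
  induction h with
  | zero =>
    intro S hS x hx hc
    have hsub : ∀ t t' : BV 0, t = t' := fun t t' => Subsingleton.elim (α := Unit) t t'
    exact ⟨fun _ => x, rfl, fun _ => hS x hx, fun t t' _ => hsub t t',
      fun t ht => absurd (hsub _ _) ht, fun t t' ht => absurd (hsub _ _) ht,
      fun u _ _ t ht => absurd (hsub _ _) ht, fun t ht => absurd (hsub _ _) ht⟩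
  | succ h ih =>
    intro S hS x hx hc
    have hxm := hS x hx
    obtain ⟨f1, p1, p2, p3, p4, p5, p6, p7⟩ := ih S hS x hx hc
    have := bv_finite h
    let S1 : Finset (Fin k → ℚ) := S ∪ (Set.finite_range f1).toFinset
    have hf1 : ∀ t, f1 t ∈ S1 := fun t =>
      Finset.mem_union_right _ ((Set.finite_range f1).mem_toFinset.2 ⟨t, rfl⟩)
    have hSS1 : ∀ u ∈ S, u ∈ S1 := fun u hu => Finset.mem_union_left _ hu
    have hS1 : ∀ s ∈ S1, StrictMono s := by
      intro s hs
      rcases Finset.mem_union.1 hs with hs | hs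
      · exact hS s hs
      · obtain ⟨t, rfl⟩ := (Set.finite_range f1).mem_toFinset.1 hs
        exact p2 t
    obtain ⟨y, hy⟩ := near_exists hR.ha hR.hb S1 x (hSS1 x hx) hxm
    have hyS1 : y ∉ S1 := near_not_mem hR.ha hR.hb hR.nhom hy
    have hne : ∀ u ∈ S1, u ≠ y := fun u hu h => hyS1 (h ▸ hu)
    let S2 : Finset (Fin k → ℚ) := insert y S1
    have hS12 : ∀ u ∈ S1, u ∈ S2 := fun u hu => Finset.mem_insert_of_mem hu
    obtain ⟨f2, q1, q2, q3, q4, q5, q6, q7⟩ := ih S2
      (by
        intro s hs
        rcases Finset.mem_insert.1 hs with rfl | hs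
        · exact hy.mono
        · exact hS1 s hs) y (Finset.mem_insert_self _ _)
      (by
        intro u hu huy
        rcases Finset.mem_insert.1 hu with hu | hu
        · exact absurd hu huy
        · exact coll_near hR.ha hR.hb hR.nhom hxm hy (fun i => mem_vals hu i))
    -- pairs from different copies
    have hcross : ∀ t t', R (f1 t) (f2 t') ↔ (t = root h ∧ t' = root h) := by
      intro t t'
      by_cases ht' : t' = root h
      · subst ht'
        rw [q1]
        by_cases ht : t = root h
        · subst ht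
          rw [p1]
          exact iff_of_true (hR.rab x y hxm hy.mono hy.st) ⟨rfl, rfl⟩
        · refine iff_of_false ?_ (fun h => ht h.1)
          intro hr
          have hu := hf1 t
          rcases p7 t ht with ⟨-, h1⟩ | ⟨-, h1⟩
          · exact hR.hom _ _ (p2 t) hy.mono (hne _ hu) hr
              (sibling_hom hR.hb h1 hy (fun i => mem_vals hu i))
          · have h2 := cells_near_le hR.ha hxm hy (fun i => mem_vals hu i)
            have h3 := hR.min _ _ hy.mono (p2 t) (hne _ hu).symm (hR.symm _ _ hr)
            omega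
      · refine iff_of_false ?_ (fun h => ht' h.2)
        intro hr
        have h1 := q6 (f1 t) (hS12 _ (hf1 t)) (hne _ (hf1 t)) t' ht'
        have h2 : f1 t ≠ f2 t' := by
          intro h3
          exact q4 t' ht' (h3 ▸ hS12 _ (hf1 t))
        have h3 := hR.min _ _ (p2 t) (q2 t') h2 hr
        omega
    have hdis : ∀ t t', f1 t ≠ f2 t' := by
      intro t t' h1
      by_cases ht' : t' = root h
      · rw [ht', q1] at h1
        exact hne _ (hf1 t) h1
      · exact q4 t' ht' (h1 ▸ hS12 _ (hf1 t))
    have hf2S : ∀ t', f2 t' ∉ S1 := by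
      intro t' h1
      by_cases ht' : t' = root h
      · rw [ht', q1] at h1
        exact hyS1 h1
      · exact q4 t' ht' (hS12 _ h1)
    refine ⟨Sum.elim f1 f2, p1, ?_, ?_, ?_, ?_, ?_, ?_⟩
    · rintro (t | t)
      · exact p2 t
      · exact q2 t
    · rintro (t | t) (t' | t') h1
      · exact congrArg Sum.inl (p3 h1)
      · exact absurd h1 (hdis t t')
      · exact absurd h1.symm (hdis t' t)
      · exact congrArg Sum.inr (q3 h1)
    · rintro (t | t) ht
      · exact p4 t fun h1 => ht (congrArg Sum.inl h1)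
      · exact fun h1 => hf2S t (hSS1 _ h1)
    · rintro (t | t) (t' | t') htt
      · exact p5 t t' fun h1 => htt (congrArg Sum.inl h1)
      · exact hcross t t'
      · show R (f2 t) (f1 t') ↔ (t = root h ∧ t' = root h)
        constructor
        · intro hr
          exact ((hcross t' t).1 (hR.symm _ _ hr)).symm
        · intro h1
          exact hR.symm _ _ ((hcross t' t).2 h1.symm)
      · exact q5 t t' fun h1 => htt (congrArg Sum.inr h1)
    · rintro u hu hux (t | t) ht
      · exact p6 u hu hux t fun h1 => ht (congrArg Sum.inl h1)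
      · show cells u (f2 t) < cells a b
        by_cases ht' : t = root h
        · rw [ht', q1]
          exact cells_lt hR.ha hxm hy (fun i => mem_vals (hSS1 u hu) i) (hc u hu hux)
        · exact q6 u (hS12 _ (hSS1 u hu)) (hne _ (hSS1 u hu)) t ht'
    · rintro (t | t) ht
      · exact p7 t fun h1 => ht (congrArg Sum.inl h1)
      · by_cases ht' : t = root h
        · left
          refine ⟨⟨rfl, ht'⟩, ?_⟩
          show ST a b x (f2 t)
          rw [ht', q1]
          exact hy.st
        · right
          refine ⟨fun h1 => ht' h1.2, ?_⟩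
          exact q6 x (hS12 _ (hSS1 x hx)) (hne _ (hSS1 x hx)) t ht'

/-- the trees -/
theorem trees_of_rel {R : (Fin k → ℚ) → (Fin k → ℚ) → Prop} {a b : Fin k → ℚ}
    (hR : Rel R a b) (n : ℕ) (V : Type) [Fintype V] [DecidableEq V] (T : SimpleGraph V)
    (hT : T.IsTree) (hV : Fintype.card V = n + 1) : ∃ f : V → Fin k → ℚ,
      Function.Injective f ∧ (∀ v, StrictMono (f v)) ∧
      ∀ v w, v ≠ w → (R (f v) (f w) ↔ T.Adj v w) := by
  obtain ⟨g, hg1, hg2⟩ := tree_in_binom n V T hT hV
  obtain ⟨f, -, f2, f3, -, f5, -, -⟩ := dfs hR n {a}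
    (by
      intro s hs
      rw [Finset.mem_singleton] at hs
      rw [hs]
      exact hR.ha) a (Finset.mem_singleton_self a)
    (by
      intro u hu hne
      exact absurd (Finset.mem_singleton.1 hu) hne)
  refine ⟨fun v => f (g v), f3.comp hg1, fun v => f2 _, ?_⟩
  intro v w hvw
  rw [f5 _ _ (fun h => hvw (hg1 h)), hg2]

end Pool.Agent.TH780.OG
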