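import Pool.Agent.TH780.OG.Main

/-!
# The Gyárfás–Sumner conjecture for order-invariant graphs on `k`-tuples

The vertices are `k`-tuples in the ordered set `Fin n`; the vertex set `Ω` is a union of order types
of tuples (for example all tuples, or all strictly increasing ones, that is, all `k`-subsets), and
whether two tuples are adjacent depends only on the order type of the pair. Shift graphs, type graphs
and all their unions are of this kind.

For all `k` and every forest `F` there is a function `f` such that `χ(G) ≤ f(ω(G))` for all `n`,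
all `Ω` and all such graphs `G`, if `F` is not an induced subgraph of `G`.

Idea. It suffices to treat graphs on `k`-subsets. If a type admits long chains, the clique number is
large. Otherwise one chooses among all adjacent pairs `(a, b)` one for which `b` occupies the
smallest number of cells of `a` (the entries of `a` and the gaps between them) and builds a tree
depth-first, each new vertex being placed by the type of `(a, b)` immediately to the right of its
parent. Because the type has no long chains, a new vertex occupies fewer cells of all vertices other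
than its parent and its siblings, and siblings are in homogeneous position.
-/

namespace Pool.Agent.TH780.OG.Invariant

/-- `x` and `x'` have the same order type. -/
def SameOrder {n : ℕ} {ι : Type} (x x' : ι → Fin n) : Prop :=
  ∀ s t, x s < x t ↔ x' s < x' t

/-- `Ω` is a union of order types of `k`-tuples. -/
def InvariantSet {n k : ℕ} (Ω : Set (Fin k → Fin n)) : Prop :=
  ∀ x x', SameOrder x x' → x ∈ Ω → x' ∈ Ω

/-- Whether two tuples are adjacent depends only on the order type of the pair. -/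
def InvariantGraph {n k : ℕ} {Ω : Set (Fin k → Fin n)} (G : SimpleGraph Ω) : Prop :=
  ∀ x y x' y' : Ω, SameOrder (Sum.elim x.1 y.1) (Sum.elim x'.1 y'.1) → G.Adj x y → G.Adj x' y'

open Pool.Agent.TH780.TG Pool.Agent.TH780.OG

/-- a tuple is a strictly increasing tuple, composed with a surjection -/
lemma factor {n k : ℕ} (x : Fin k → Fin n) : ∃ r ≤ k, ∃ (π : Fin k → Fin r) (σ : Fin r → Fin k)
    (u : Fin r → Fin n), StrictMono u ∧ (∀ j, x j = u (π j)) ∧ ∀ i, π (σ i) = i := by
  classical
  let s : Finset (Fin n) := Finset.univ.image x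
  have hs : ∀ j, x j ∈ s := fun j => Finset.mem_image.2 ⟨j, Finset.mem_univ _, rfl⟩
  have hr : s.card ≤ k := by
    have := Finset.card_image_le (s := (Finset.univ : Finset (Fin k))) (f := x)
    rwa [Finset.card_univ, Fintype.card_fin] at this
  let e : Fin s.card ≃o s := s.orderIsoOfFin rfl
  have hσ : ∀ i : Fin s.card, ∃ j : Fin k, x j = (e i).1 := by
    intro i
    obtain ⟨j, -, hj⟩ := Finset.mem_image.1 (e i).2
    exact ⟨j, hj⟩
  choose σ hσ' using hσ
  refine ⟨s.card, hr, fun j => e.symm ⟨x j, hs j⟩, σ, fun i => (e i).1, ?_, ?_, ?_⟩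
  · intro i j hij
    exact e.strictMono hij
  · intro j
    show x j = (e (e.symm ⟨x j, hs j⟩)).1
    rw [e.apply_symm_apply]
  · intro i
    show e.symm ⟨x (σ i), hs (σ i)⟩ = i
    rw [e.symm_apply_eq]
    exact Subtype.ext (hσ' i)

lemma same_one {n k r : ℕ} (π : Fin k → Fin r) {u u' : Fin r → Fin n} (hu : StrictMono u)
    (hu' : StrictMono u') : SameOrder (fun j => u (π j)) (fun j => u' (π j)) :=
  fun _ _ => hu.lt_iff_lt.trans hu'.lt_iff_lt.symm

lemma same_two {n k r : ℕ} (π : Fin k → Fin r) {u v u' v' : Fin r → Fin n} (hu : StrictMono u)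
    (hu' : StrictMono u') (hv : StrictMono v) (hv' : StrictMono v') (h : tp u v = tp u' v') :
    SameOrder (Sum.elim (fun j => u (π j)) fun j => v (π j))
      (Sum.elim (fun j => u' (π j)) fun j => v' (π j)) := by
  have h1 : ∀ i j, (u i < v j ↔ u' i < v' j) ∧ (v j < u i ↔ v' j < u' i) := by
    intro i j
    rw [← cmp_eq_iff]
    exact congrFun (congrFun h i) j
  rintro (s | s) (t | t)
  · exact hu.lt_iff_lt.trans hu'.lt_iff_lt.symm
  · exact (h1 _ _).1
  · exact (h1 _ _).2
  · exact hv.lt_iff_lt.trans hv'.lt_iff_lt.symm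

lemma main_step {k m N n : ℕ} (F : SimpleGraph (Fin m)) (Ω : Set (Fin k → Fin n))
    (G : SimpleGraph Ω) (hΩ : InvariantSet Ω) (hG : InvariantGraph G)
    (hthr : ∀ r ≤ k, ∀ D : Set (Fin r → Fin r → Ordering),
      (∀ u v : Fin r → ℚ, StrictMono u → StrictMono v → u ≠ v → ¬ RD D u v) ∨
      (∃ g : Fin N → Fin r → Fin n, Function.Injective g ∧ (∀ v, StrictMono (g v)) ∧
        ∀ v w, v ≠ w → RD D (g v) (g w)) ∨
      (∃ g : Fin m → Fin r → Fin n, Function.Injective g ∧ (∀ v, StrictMono (g v)) ∧
        ∀ v w, v ≠ w → (RD D (g v) (g w) ↔ F.Adj v w)))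
    (hF : ¬ F.IsIndContained G)
    (hN : ∀ g : Fin N → Ω, Function.Injective g → ¬ ∀ v w, v ≠ w → G.Adj (g v) (g w))
    (x y : Ω) (hxy : G.Adj x y)
    (hpat : ∀ i j, cmp (x.1 i) (x.1 j) = cmp (y.1 i) (y.1 j)) : False := by
  classical
  obtain ⟨r, hr, π, σ, u, hu, hxu, hπσ⟩ := factor x.1
  have hpat' : ∀ i j, (x.1 i < x.1 j ↔ y.1 i < y.1 j) ∧ (x.1 j < x.1 i ↔ y.1 j < y.1 i) :=
    fun i j => (cmp_eq_iff _ _ _ _).1 (hpat i j)
  have hxσ : ∀ i, x.1 (σ i) = u i := by
    intro i
    rw [hxu, hπσ]
  let v : Fin r → Fin n := fun i => y.1 (σ i)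
  have hv : StrictMono v := by
    intro i j hij
    show y.1 (σ i) < y.1 (σ j)
    rw [← (hpat' _ _).1, hxσ, hxσ]
    exact hu hij
  have hyv : ∀ j, y.1 j = v (π j) := by
    intro j
    have h1 : x.1 (σ (π j)) = x.1 j := by rw [hxσ, ← hxu]
    have h2 := hpat' (σ (π j)) j
    rw [h1] at h2
    show y.1 j = y.1 (σ (π j))
    apply le_antisymm
    · rw [← not_lt, ← h2.1]
      exact lt_irrefl _
    · rw [← not_lt, ← h2.2]
      exact lt_irrefl _
  have hmem : ∀ w : Fin r → Fin n, StrictMono w → (fun j => w (π j)) ∈ Ω := by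
    intro w hw
    refine hΩ _ _ (same_one π hu hw) ?_
    have : (fun j => u (π j)) = x.1 := (funext hxu).symm
    rw [this]
    exact x.2
  let D : Set (Fin r → Fin r → Ordering) := {c | ∃ (p q : Fin r → Fin n) (hp : StrictMono p)
    (hq : StrictMono q), G.Adj ⟨_, hmem p hp⟩ ⟨_, hmem q hq⟩ ∧ tp p q = c}
  have hD1 : ∀ (p q : Fin r → Fin n) (hp : StrictMono p) (hq : StrictMono q), tp p q ∈ D →
      G.Adj ⟨_, hmem p hp⟩ ⟨_, hmem q hq⟩ := by
    rintro p q hp hq ⟨p', q', hp', hq', hadj, heq⟩
    exact hG _ _ _ _ (same_two π hp' hp hq' hq heq) hadj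
  have hD : ∀ (p q : Fin r → Fin n) (hp : StrictMono p) (hq : StrictMono q),
      RD D p q ↔ G.Adj ⟨_, hmem p hp⟩ ⟨_, hmem q hq⟩ := by
    intro p q hp hq
    constructor
    · rintro (h | h)
      · exact hD1 p q hp hq h
      · exact (hD1 q p hq hp h).symm
    · intro h
      exact Or.inl ⟨p, q, hp, hq, h, rfl⟩
  have hinj : ∀ p q : Fin r → Fin n, (fun j => p (π j)) = (fun j => q (π j)) → p = q := by
    intro p q h
    funext i
    have := congrFun h (σ i)
    simp only [hπσ] at this
    exact this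
  rcases hthr r hr D with h1 | ⟨g, g1, g2, g3⟩ | ⟨g, g1, g2, g3⟩
  · let a : Fin r → ℚ := fun i => ((u i : ℕ) : ℚ)
    let b : Fin r → ℚ := fun i => ((v i : ℕ) : ℚ)
    have ha : StrictMono a := by
      intro i j hij
      have h2 : (u i : ℕ) < (u j : ℕ) := hu hij
      show ((u i : ℕ) : ℚ) < ((u j : ℕ) : ℚ)
      exact_mod_cast h2
    have hb : StrictMono b := by
      intro i j hij
      have h2 : (v i : ℕ) < (v j : ℕ) := hv hij
      show ((v i : ℕ) : ℚ) < ((v j : ℕ) : ℚ)
      exact_mod_cast h2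
    have hab : a ≠ b := by
      intro h
      apply hxy.ne
      apply Subtype.ext
      funext j
      rw [hxu, hyv]
      have h2 : ((u (π j) : ℕ) : ℚ) = ((v (π j) : ℕ) : ℚ) := congrFun h (π j)
      have h3 : (u (π j) : ℕ) = (v (π j) : ℕ) := by exact_mod_cast h2
      exact Fin.ext h3
    have htp : tp a b = tp u v := by
      funext i j
      show cmp ((u i : ℕ) : ℚ) ((v j : ℕ) : ℚ) = cmp (u i) (v j)
      rw [cmp_eq_iff, Nat.cast_lt, Nat.cast_lt]
      exact ⟨Iff.rfl, Iff.rfl⟩
    refine h1 a b ha hb hab (RD_of_tp htp ?_)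
    rw [hD u v hu hv]
    have hx' : (⟨_, hmem u hu⟩ : Ω) = x := Subtype.ext (funext hxu).symm
    have hy' : (⟨_, hmem v hv⟩ : Ω) = y := Subtype.ext (funext hyv).symm
    rw [hx', hy']
    exact hxy
  · refine hN (fun s => ⟨_, hmem (g s) (g2 s)⟩) ?_ ?_
    · intro s t hst
      exact g1 (hinj _ _ (congrArg Subtype.val hst))
    · intro s t hst
      exact (hD _ _ (g2 s) (g2 t)).1 (g3 s t hst)
  · apply hF
    refine ⟨⟨⟨fun s => ⟨_, hmem (g s) (g2 s)⟩, ?_⟩, ?_⟩⟩
    · intro s t hst
      exact g1 (hinj _ _ (congrArg Subtype.val hst))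
    · intro s t
      show G.Adj ⟨_, hmem (g s) (g2 s)⟩ ⟨_, hmem (g t) (g2 t)⟩ ↔ F.Adj s t
      by_cases hst : s = t
      · subst hst
        exact ⟨fun h => absurd rfl h.ne, fun h => absurd rfl h.ne⟩
      · rw [← hD _ _ (g2 s) (g2 t)]
        exact g3 s t hst

theorem invariant_graphs (k m : ℕ) (F : SimpleGraph (Fin m)) (hF : F.IsAcyclic) :
    ∃ f : ℕ → ℕ, ∀ (n : ℕ) (Ω : Set (Fin k → Fin n)) (G : SimpleGraph Ω),
      InvariantSet Ω → InvariantGraph G → ¬ F.IsIndContained G →
        G.chromaticNumber ≤ (f G.cliqueNum : ℕ) := by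
  classical
  have hthr : ∀ (N r : ℕ) (D : Set (Fin r → Fin r → Ordering)), ∃ n0 : ℕ, ∀ n, n0 ≤ n →
      (∀ u v : Fin r → ℚ, StrictMono u → StrictMono v → u ≠ v → ¬ RD D u v) ∨
      (∃ g : Fin N → Fin r → Fin n, Function.Injective g ∧ (∀ v, StrictMono (g v)) ∧
        ∀ v w, v ≠ w → RD D (g v) (g w)) ∨
      (∃ g : Fin m → Fin r → Fin n, Function.Injective g ∧ (∀ v, StrictMono (g v)) ∧
        ∀ v w, v ≠ w → (RD D (g v) (g w) ↔ F.Adj v w)) := by
    intro N r D
    rcases trichotomy D F hF N with h | ⟨n0, h⟩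
    · exact ⟨0, fun n _ => Or.inl h⟩
    · exact ⟨n0, fun n hn => Or.inr (h n hn)⟩
  choose n0 hn0 using hthr
  let M : ℕ → ℕ := fun N => ∑ r ∈ Finset.range (k + 1), ∑ D : Set (Fin r → Fin r → Ordering),
    n0 N r D
  have hM : ∀ N r, r ≤ k → ∀ D : Set (Fin r → Fin r → Ordering), n0 N r D ≤ M N := by
    intro N r hr D
    calc n0 N r D ≤ ∑ D : Set (Fin r → Fin r → Ordering), n0 N r D :=
          Finset.single_le_sum (f := fun D' => n0 N r D') (fun _ _ => Nat.zero_le _)
            (Finset.mem_univ D)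
      _ ≤ M N := Finset.single_le_sum
            (f := fun r' => ∑ D : Set (Fin r' → Fin r' → Ordering), n0 N r' D)
            (fun _ _ => Nat.zero_le _) (Finset.mem_range.2 (Nat.lt_succ_of_le hr))
  refine ⟨fun w => M (w + 1) ^ k + Fintype.card (Fin k → Fin k → Ordering), ?_⟩
  intro n Ω G hΩ hG hFG
  have hfin : Fintype Ω := Fintype.ofFinite _
  by_cases hn : n < M (G.cliqueNum + 1)
  · have h1 : G.Colorable (n ^ k) := by
      refine G.colorable_of_fintype.mono ?_
      calc Fintype.card Ω ≤ Fintype.card (Fin k → Fin n) :=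
            Fintype.card_le_of_injective Subtype.val Subtype.val_injective
        _ = n ^ k := by simp
    refine (h1.mono ?_).chromaticNumber_le
    exact (Nat.pow_le_pow_left hn.le k).trans (Nat.le_add_right _ _)
  · have h1 : G.Colorable (Fintype.card (Fin k → Fin k → Ordering)) := by
      refine SimpleGraph.Coloring.colorable (SimpleGraph.Coloring.mk
        (fun x : Ω => fun i j => cmp (x.1 i) (x.1 j)) ?_)
      intro x y hxy hcol
      refine main_step (N := G.cliqueNum + 1) F Ω G hΩ hG ?_ hFG ?_ x y hxy ?_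
      · intro r hr D
        exact hn0 _ r D n ((hM _ r hr D).trans (not_lt.1 hn))
      · intro g hg hadj
        have hclique : G.IsClique ((Finset.univ.image g : Finset Ω) : Set Ω) := by
          intro p hp q hq hpq
          rw [Finset.mem_coe, Finset.mem_image] at hp hq
          obtain ⟨v, -, rfl⟩ := hp
          obtain ⟨w, -, rfl⟩ := hq
          exact hadj v w fun h => hpq (congrArg g h)
        have h1 := hclique.card_le_cliqueNum
        rw [Finset.card_image_of_injective _ hg, Finset.card_univ, Fintype.card_fin] at h1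
        omega
      · intro i j
        exact congrFun (congrFun hcol i) j
    exact (h1.mono (Nat.le_add_left _ _)).chromaticNumber_le

end Pool.Agent.TH780.OG.Invariant
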