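import Pool.Agent.TH780.OG.Dfs
import Pool.Agent.TH780.TG.Main

/-!
# The trichotomy for sets of types
-/

set_option autoImplicit false

namespace Pool.Agent.TH780.OG

open Pool.Agent.TH780.TG

variable {k : ℕ}

/-- the type of a pair of tuples -/
def tp {α : Type} [LinearOrder α] (u v : Fin k → α) : Fin k → Fin k → Ordering :=
  fun i j => cmp (u i) (v j)

/-- the type of `u, v` in one of the two orders lies in `D` -/
def RD (D : Set (Fin k → Fin k → Ordering)) {α : Type} [LinearOrder α] (u v : Fin k → α) : Prop :=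
  tp u v ∈ D ∨ tp v u ∈ D

lemma RD_symm {D : Set (Fin k → Fin k → Ordering)} {α : Type} [LinearOrder α]
    {u v : Fin k → α} (h : RD D u v) : RD D v u := h.symm

lemma tp_swap {α β : Type} [LinearOrder α] [LinearOrder β] {u v : Fin k → α} {x y : Fin k → β}
    (h : tp u v = tp x y) : tp v u = tp y x := by
  funext i j
  have h1 : cmp (u j) (v i) = cmp (x j) (y i) := congrFun (congrFun h j) i
  show cmp (v i) (u j) = cmp (y i) (x j)
  rw [← cmp_swap (u j) (v i), ← cmp_swap (x j) (y i), h1]

lemma RD_of_tp {D : Set (Fin k → Fin k → Ordering)} {α β : Type} [LinearOrder α] [LinearOrder β]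
    {u v : Fin k → α} {x y : Fin k → β} (h : tp u v = tp x y) (hr : RD D x y) : RD D u v := by
  rcases hr with hr | hr
  · exact Or.inl (h ▸ hr)
  · exact Or.inr ((tp_swap h) ▸ hr)

lemma tp_eq_of_ST {α β : Type} [LinearOrder α] [LinearOrder β] {a b : Fin k → β}
    {x y : Fin k → α} (h : ST a b x y) : tp x y = tp a b := by
  funext i j
  exact (ST_iff_cmp a b x y).1 h i j

lemma tp_eq_of_lt_iff {α β V : Type} [LinearOrder α] [LinearOrder β] {f : V → Fin k → α}
    {g : V → Fin k → β} (h : ∀ v w i j, (g v i < g w j ↔ f v i < f w j)) (v w : V) :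
    tp (g v) (g w) = tp (f v) (f w) := by
  funext i j
  show cmp (g v i) (g w j) = cmp (f v i) (f w j)
  rw [cmp_eq_iff]
  exact ⟨h v w i j, h w v j i⟩

/-- Every set of types is not realized, or has arbitrarily large cliques or every forest, for
large `n`. -/
theorem trichotomy (D : Set (Fin k → Fin k → Ordering)) {m : ℕ} (F : SimpleGraph (Fin m))
    (hF : F.IsAcyclic) (N : ℕ) :
    (∀ u v : Fin k → ℚ, StrictMono u → StrictMono v → u ≠ v → ¬ RD D u v) ∨
    ∃ n0 : ℕ, ∀ n, n0 ≤ n →
      (∃ g : Fin N → Fin k → Fin n, Function.Injective g ∧ (∀ v, StrictMono (g v)) ∧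
        ∀ v w, v ≠ w → RD D (g v) (g w)) ∨
      (∃ g : Fin m → Fin k → Fin n, Function.Injective g ∧ (∀ v, StrictMono (g v)) ∧
        ∀ v w, v ≠ w → (RD D (g v) (g w) ↔ F.Adj v w)) := by
  classical
  by_cases h1 : ∃ u v : Fin k → ℚ, StrictMono u ∧ StrictMono v ∧ u ≠ v ∧ RD D u v
  · right
    by_cases h2 : ∃ u v : Fin k → ℚ, StrictMono u ∧ StrictMono v ∧ u ≠ v ∧ RD D u v ∧ Hom u v
    · obtain ⟨u, v, hu, hv, huv, hr, hom⟩ := h2
      obtain ⟨n0, hn0⟩ := clique_embeds hu hv huv hom N
      refine ⟨n0, fun n hn => Or.inl ?_⟩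
      obtain ⟨g, g1, g2, g3⟩ := hn0 n hn
      refine ⟨g, g1, g2, ?_⟩
      intro s s' hs
      rcases lt_or_gt_of_ne hs with h3 | h3
      · exact RD_of_tp (tp_eq_of_ST (g3 s s' h3)) hr
      · exact RD_symm (RD_of_tp (tp_eq_of_ST (g3 s' s h3)) hr)
    · -- a pair with the smallest number of cells
      let C : Set ℕ := {c | ∃ u v : Fin k → ℚ, StrictMono u ∧ StrictMono v ∧ u ≠ v ∧ RD D u v ∧
        cells u v = c}
      have hC : C.Nonempty := by
        obtain ⟨u, v, hu, hv, huv, hr⟩ := h1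
        exact ⟨_, u, v, hu, hv, huv, hr, rfl⟩
      obtain ⟨a, b, ha, hb, hab, hr, hcab⟩ := Nat.sInf_mem hC
      have hmin : ∀ x y : Fin k → ℚ, StrictMono x → StrictMono y → x ≠ y → RD D x y →
          cells a b ≤ cells x y := by
        intro x y hx hy hxy hr'
        rw [hcab]
        exact Nat.sInf_le ⟨x, y, hx, hy, hxy, hr', rfl⟩
      have hhom : ∀ x y : Fin k → ℚ, StrictMono x → StrictMono y → x ≠ y → RD D x y →
          ¬ Hom x y := fun x y hx hy hxy hr' hom => h2 ⟨x, y, hx, hy, hxy, hr', hom⟩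
      have hRel : Rel (fun x y => RD D x y) a b :=
        { ha := ha
          hb := hb
          rab := fun x y _ _ hst => RD_of_tp (tp_eq_of_ST hst) hr
          nhom := hhom a b ha hb hab hr
          symm := fun x y h => RD_symm h
          min := hmin
          hom := hhom }
      obtain ⟨T, hT, ⟨φ⟩⟩ := Pool.Agent.H367R3.forest_in_tree F hF
      obtain ⟨f, hf1, hf2, hf3⟩ := trees_of_rel hRel m (Fin (m + 1)) T hT (Fintype.card_fin _)
      obtain ⟨n0, hn0⟩ := transfer fun v => f (φ v)
      refine ⟨n0, fun n hn => Or.inr ?_⟩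
      obtain ⟨g, hg⟩ := hn0 n hn
      refine ⟨g, ?_, ?_, ?_⟩
      · intro v w hvw
        apply φ.injective
        apply hf1
        funext i
        apply le_antisymm
        · rw [← not_lt, ← hg w v i i, hvw]
          exact lt_irrefl _
        · rw [← not_lt, ← hg v w i i, hvw]
          exact lt_irrefl _
      · intro v i j hij
        rw [hg]
        exact hf2 _ hij
      · intro v w hvw
        have h3 : tp (g v) (g w) = tp (f (φ v)) (f (φ w)) := tp_eq_of_lt_iff hg v w
        have h4 : RD D (g v) (g w) ↔ RD D (f (φ v)) (f (φ w)) :=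
          ⟨fun h => RD_of_tp h3.symm h, fun h => RD_of_tp h3 h⟩
        rw [h4, hf3 _ _ (fun h => hvw (φ.injective h)), φ.map_adj_iff]
  · left
    intro u v hu hv huv hr
    exact h1 ⟨u, v, hu, hv, huv, hr⟩

end Pool.Agent.TH780.OG
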