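import Pool.Agent.TH780.OG.Pos

/-!
# Near extensions and the number of cells
-/

set_option autoImplicit false

namespace Pool.Agent.TH780.OG

open Pool.Agent.TH780.TG

variable {k : ℕ}

/-- `y` is placed at `x` by the type of `(a, b)`, immediately to the right of the entries of `x`
with respect to `B`. -/
structure Near (a b x y : Fin k → ℚ) (B : Finset ℚ) : Prop where
  mono : StrictMono y
  st : ST a b x y
  imm : ∀ j, Fresh a b j → ∀ β ∈ B, (∀ i, a i < b j → x i < β) → y j < β

open Classical in
/-- comparison of `t` with the position `(q, e)` at `x` -/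
noncomputable def val (x : Fin k → ℚ) (t : ℚ) (q : Option (Fin k)) (e : Prop) : Ordering :=
  match q with
  | none => Ordering.gt
  | some m => if e then cmp t (x m) else if t ≤ x m then Ordering.lt else Ordering.gt

lemma val_congr {x : Fin k → ℚ} {t : ℚ} {q : Option (Fin k)} {e e' : Prop} (h : e ↔ e') :
    val x t q e = val x t q e' := by
  rw [propext h]

lemma near_cmp {a b x y : Fin k → ℚ} {B : Finset ℚ} (ha : StrictMono a) (hx : StrictMono x)
    (h : Near a b x y B) {t : ℚ} (ht : t ∈ B) (j : Fin k) :
    cmp t (y j) = val x t (top a b j) (ex a b j) := by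
  classical
  rcases h1 : top a b j with _ | m
  · show _ = Ordering.gt
    rw [cmp_eq_gt_iff]
    apply h.imm j (fun i hi => not_ex_of_none h1 ⟨i, hi⟩) t ht
    intro i hi
    exact absurd hi (top_none h1 i).not_gt
  · by_cases he : ex a b j
    · have h2 := h.st.eq_of (exact_top ha h1 he)
      show _ = if ex a b j then cmp t (x m) else _
      rw [if_pos he, h2]
    · show _ = if ex a b j then cmp t (x m) else
        if t ≤ x m then Ordering.lt else Ordering.gt
      rw [if_neg he]
      obtain ⟨h3, h4⟩ := top_some h1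
      have h5 : a m < b j := lt_of_le_of_ne h3 fun h => he ⟨m, h⟩
      split_ifs with h6
      · rw [cmp_eq_lt_iff]
        exact lt_of_le_of_lt h6 ((h.st m j).1.2 h5)
      · rw [cmp_eq_gt_iff]
        apply h.imm j (fun i hi => he ⟨i, hi⟩) t ht
        intro i hi
        exact lt_of_le_of_lt (hx.monotone (h4 i hi.le)) (not_le.1 h6)

lemma near_cmp2 {a b x y z : Fin k → ℚ} {B B' : Finset ℚ} (ha : StrictMono a)
    (hx : StrictMono x) (h : Near a b x y B) (h' : Near a b y z B') {t : ℚ} (ht : t ∈ B)
    (ht' : t ∈ B') (j : Fin k) :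
    cmp t (z j) = val x t ((top a b j).bind (top a b)) (ex2 a b j) := by
  classical
  rw [near_cmp ha h.mono h' ht' j]
  rcases h1 : top a b j with _ | m
  · rfl
  · show (if ex a b j then cmp t (y m) else if t ≤ y m then Ordering.lt else Ordering.gt) =
      val x t (top a b m) (ex2 a b j)
    have hty : t ≤ y m ↔ cmp t (y m) ≠ Ordering.gt := by
      rw [Ne, cmp_eq_gt_iff, not_lt]
    have hcm := near_cmp ha hx h ht m
    have hex2 : ex2 a b j ↔ ex a b j ∧ ex a b m := by
      constructor
      · rintro ⟨h2, m', h3, h4⟩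
        rw [h1, Option.some.injEq] at h3
        exact ⟨h2, h3 ▸ h4⟩
      · rintro ⟨h2, h3⟩
        exact ⟨h2, m, h1, h3⟩
    rw [val_congr hex2]
    by_cases he : ex a b j
    · rw [if_pos he, hcm]
      apply val_congr
      simp [he]
    · rw [if_neg he]
      have : (ex a b j ∧ ex a b m) ↔ False := iff_of_false (fun h => he h.1) (fun h => h)
      rw [val_congr this]
      rcases h2 : top a b m with _ | i
      · rw [h2] at hcm
        have h3 : cmp t (y m) = Ordering.gt := hcm
        rw [if_neg (fun h4 => hty.1 h4 h3)]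
        rfl
      · rw [h2] at hcm
        have hti : t ≤ y m ↔ t ≤ x i := by
          by_cases hm : ex a b m
          · have h3 : cmp t (y m) = cmp t (x i) := by
              rw [hcm]
              show (if ex a b m then cmp t (x i) else _) = _
              rw [if_pos hm]
            rw [hty, h3, Ne, cmp_eq_gt_iff, not_lt]
          · have h3 : cmp t (y m) = if t ≤ x i then Ordering.lt else Ordering.gt := by
              rw [hcm]
              show (if ex a b m then cmp t (x i) else _) = _
              rw [if_neg hm]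
            rw [hty, h3]
            by_cases h4 : t ≤ x i
            · rw [if_pos h4]
              exact iff_of_true (by decide) h4
            · rw [if_neg h4]
              exact iff_of_false (by simp) h4
        simp only [val, if_false]
        by_cases h4 : t ≤ x i
        · rw [if_pos h4, if_pos (hti.2 h4)]
        · rw [if_neg h4, if_neg (fun h5 => h4 (hti.1 h5))]

/-- the cell of `u j` relative to `v` -/
def cell (v u : Fin k → ℚ) (j : Fin k) : Fin k → Ordering := fun i => cmp (v i) (u j)

open Classical in
/-- the number of cells of `v` which are occupied by `u` -/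
noncomputable def cells (v u : Fin k → ℚ) : ℕ := (Finset.univ.image (cell v u)).card

lemma image_eq_extend {γ δ : Type} [DecidableEq γ] [DecidableEq δ] [Inhabited δ]
    (f : Fin k → γ) (g : Fin k → δ) (h : ∀ j j', f j = f j' → g j = g j') :
    ∃ e : γ → δ, (∀ j, e (f j) = g j) ∧
      Finset.univ.image g = (Finset.univ.image f).image e := by
  have hf : Function.FactorsThrough g f := fun j j' hj => h j j' hj
  refine ⟨Function.extend f g (fun _ => default), fun j => hf.extend_apply _ j, ?_⟩
  rw [Finset.image_image]
  apply Finset.image_congr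
  intro j _
  exact (hf.extend_apply _ j).symm

lemma card_image_le_of {γ δ : Type} [DecidableEq γ] [DecidableEq δ] [Inhabited δ]
    (f : Fin k → γ) (g : Fin k → δ) (h : ∀ j j', f j = f j' → g j = g j') :
    (Finset.univ.image g).card ≤ (Finset.univ.image f).card := by
  obtain ⟨e, -, he⟩ := image_eq_extend f g h
  rw [he]
  exact Finset.card_image_le

lemma card_image_lt_of {γ δ : Type} [DecidableEq γ] [DecidableEq δ] [Inhabited δ]
    (f : Fin k → γ) (g : Fin k → δ) (h : ∀ j j', f j = f j' → g j = g j')
    (h2 : ∃ j j', f j ≠ f j' ∧ g j = g j') :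
    (Finset.univ.image g).card < (Finset.univ.image f).card := by
  obtain ⟨e, he1, he⟩ := image_eq_extend f g h
  rw [he]
  refine lt_of_le_of_ne Finset.card_image_le ?_
  intro hcon
  rw [Finset.card_image_iff] at hcon
  obtain ⟨j, j', hne, hg⟩ := h2
  apply hne
  apply hcon (Finset.mem_coe.2 (Finset.mem_image_of_mem f (Finset.mem_univ j)))
    (Finset.mem_coe.2 (Finset.mem_image_of_mem f (Finset.mem_univ j')))
  rw [he1, he1, hg]

instance : Inhabited Ordering := ⟨Ordering.eq⟩

lemma cell_le {v u : Fin k → ℚ} {j j' : Fin k} (h : cell v u j = cell v u j') (i : Fin k) :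
    v i ≤ u j ↔ v i ≤ u j' := by
  have h1 : cmp (v i) (u j) = cmp (v i) (u j') := congrFun h i
  rw [← not_lt, ← not_lt, ← cmp_eq_gt_iff, ← cmp_eq_gt_iff, h1]

lemma cell_eq {v u : Fin k → ℚ} {j j' : Fin k} (h : cell v u j = cell v u j') (i : Fin k) :
    v i = u j ↔ v i = u j' := by
  have h1 : cmp (v i) (u j) = cmp (v i) (u j') := congrFun h i
  rw [← cmp_eq_eq_iff (v i) (u j), ← cmp_eq_eq_iff (v i) (u j'), h1]

lemma pos_of_cell {a b : Fin k → ℚ} {j j' : Fin k} (h : cell a b j = cell a b j') :
    top a b j = top a b j' ∧ (ex a b j ↔ ex a b j') := by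
  constructor
  · rcases h1 : top a b j' with _ | m
    · apply top_eq_none
      intro i
      have := top_none h1 i
      rw [← not_le, cell_le h i, not_le]
      exact this
    · obtain ⟨h2, h3⟩ := top_some h1
      exact top_eq_some ((cell_le h m).2 h2) fun i hi => h3 i ((cell_le h i).1 hi)
  · exact exists_congr fun i => cell_eq h i

/-- The position of a child of `x` collides when it is seen from `u`. -/
def Coll (a b u x : Fin k → ℚ) : Prop :=
  ∃ j j', cell a b j ≠ cell a b j' ∧ ∀ (y : Fin k → ℚ) (B : Finset ℚ), (∀ i, u i ∈ B) →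
    Near a b x y B → cell u y j = cell u y j'

/-- (S0) cells only merge -/
lemma cell_near {a b x y u : Fin k → ℚ} {B : Finset ℚ} (ha : StrictMono a) (hx : StrictMono x)
    (h : Near a b x y B) (hu : ∀ i, u i ∈ B) {j j' : Fin k} (hj : cell a b j = cell a b j') :
    cell u y j = cell u y j' := by
  obtain ⟨h1, h2⟩ := pos_of_cell hj
  funext i
  show cmp (u i) (y j) = cmp (u i) (y j')
  rw [near_cmp ha hx h (hu i), near_cmp ha hx h (hu i), h1, val_congr h2]

/-- (S1) -/
lemma cells_lt {a b x y u : Fin k → ℚ} {B : Finset ℚ} (ha : StrictMono a) (hx : StrictMono x)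
    (h : Near a b x y B) (hu : ∀ i, u i ∈ B) (hc : Coll a b u x) : cells u y < cells a b := by
  classical
  obtain ⟨j, j', h1, h2⟩ := hc
  exact card_image_lt_of (cell a b) (cell u y) (fun j j' hj => cell_near ha hx h hu hj)
    ⟨j, j', h1, h2 y B hu h⟩

/-- (S3) -/
lemma coll_near {a b x y u : Fin k → ℚ} {B : Finset ℚ} (ha : StrictMono a) (hb : StrictMono b)
    (hab : ¬ Hom a b) (hx : StrictMono x) (h : Near a b x y B) (hu : ∀ i, u i ∈ B) :
    Coll a b u y := by
  obtain ⟨j, j', h1, h2, h3⟩ := collision ha hb hab
  refine ⟨j, j', fun h4 => h1 (pos_of_cell h4), ?_⟩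
  intro z B' hu' hz
  funext i
  show cmp (u i) (z j) = cmp (u i) (z j')
  rw [near_cmp2 ha hx h hz (hu i) (hu' i), near_cmp2 ha hx h hz (hu i) (hu' i), h2, val_congr h3]

lemma val_of_cmp {x : Fin k → ℚ} {t t' : ℚ} (h : ∀ i, cmp (x i) t = cmp (x i) t')
    (q : Option (Fin k)) (e : Prop) : val x t q e = val x t' q e := by
  classical
  have h1 : ∀ i, cmp t (x i) = cmp t' (x i) := by
    intro i
    rw [← cmp_swap (x i) t, ← cmp_swap (x i) t', h i]
  have h2 : ∀ i, t ≤ x i ↔ t' ≤ x i := by
    intro i
    rw [← not_lt, ← not_lt, ← cmp_eq_gt_iff, ← cmp_eq_gt_iff, h1 i]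
  rcases q with _ | m
  · rfl
  · show (if e then cmp t (x m) else if t ≤ x m then Ordering.lt else Ordering.gt) =
      (if e then cmp t' (x m) else if t' ≤ x m then Ordering.lt else Ordering.gt)
    rw [h1 m]
    simp only [h2 m]

/-- (S2) -/
lemma cells_near_le {a b x y u : Fin k → ℚ} {B : Finset ℚ} (ha : StrictMono a)
    (hx : StrictMono x) (h : Near a b x y B) (hu : ∀ i, u i ∈ B) : cells y u ≤ cells x u := by
  classical
  refine card_image_le_of (cell x u) (cell y u) (fun j j' hj => ?_)
  funext i
  show cmp (y i) (u j) = cmp (y i) (u j')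
  rw [← cmp_swap (u j) (y i), ← cmp_swap (u j') (y i), near_cmp ha hx h (hu j),
    near_cmp ha hx h (hu j'), val_of_cmp (fun i => congrFun hj i)]

/-- (S4) siblings are in homogeneous position -/
lemma sibling_hom {a b x y u : Fin k → ℚ} {B : Finset ℚ} (hb : StrictMono b)
    (hxu : ST a b x u) (h : Near a b x y B) (hu : ∀ i, u i ∈ B) : Hom u y := by
  have hfr : ∀ j, Fresh a b j → ∀ i, u i ≠ y j := by
    intro j hj i hij
    refine absurd (h.imm j hj (y j) (hij ▸ hu i) ?_) (lt_irrefl _)
    intro l hl
    exact (h.st l j).1.2 hl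
  refine ⟨?_, ?_⟩
  · intro i j hij
    by_cases hj : Fresh a b j
    · exact absurd hij (hfr j hj i)
    · have : ∃ m, a m = b j := by
        by_contra hcon
        exact hj fun m hm => hcon ⟨m, hm⟩
      obtain ⟨m, hm⟩ := this
      have h1 := h.st.eq_of hm
      -- `x m = u i`
      have h2 : x m = u i := h1.trans hij.symm
      have h3 := hxu m i
      have h4 : a m = b i := by
        apply le_antisymm
        · rw [← not_lt, ← h3.2, h2]
          exact lt_irrefl _
        · rw [← not_lt, ← h3.1, h2]
          exact lt_irrefl _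
      exact hb.injective (h4.symm.trans hm)
  · intro j _ i i' h1 h2
    by_cases hj : Fresh a b j
    · have h3 : ∃ l, a l < b j ∧ u i ≤ x l := by
        by_contra hcon
        push Not at hcon
        exact absurd (h.imm j hj (u i) (hu i) hcon) h1.not_gt
      obtain ⟨l, hl1, hl2⟩ := h3
      have h4 : b i ≤ a l := by
        rw [← not_lt, ← (hxu l i).1, not_lt]
        exact hl2
      have hij : i < j := hb.lt_iff_lt.1 (lt_of_le_of_lt h4 hl1)
      constructor
      · have h5 : x l < y j := (h.st l j).1.2 hl1
        have h6 : a l < b i' := (hxu l i').1.1 (h5.trans h2)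
        exact lt_of_le_of_lt hl2 ((h.st l i').1.2 h6)
      · exact (h.mono hij).trans h2
    · have : ∃ m, a m = b j := by
        by_contra hcon
        exact hj fun m hm => hcon ⟨m, hm⟩
      obtain ⟨m, hm⟩ := this
      have h3 := h.st.eq_of hm
      rw [← h3] at h1 h2
      have h4 : b i < b j := by
        rw [← hm]
        exact (hxu m i).2.1 h1
      have h5 : b j < b i' := by
        rw [← hm]
        exact (hxu m i').1.1 h2
      constructor
      · calc u i < x m := h1
          _ = y j := h3
          _ < y i' := h.mono (hb.lt_iff_lt.1 h5)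
      · calc y i < y j := h.mono (hb.lt_iff_lt.1 h4)
          _ = x m := h3.symm
          _ < u i' := h2

/-- existence of near extensions -/
lemma near_exists {a b : Fin k → ℚ} (ha : StrictMono a) (hb : StrictMono b)
    (S : Finset (Fin k → ℚ)) (x : Fin k → ℚ) (hx : x ∈ S) (hxm : StrictMono x) :
    ∃ y : Fin k → ℚ, Near a b x y (vals S) := by
  obtain ⟨y, h1, h2, -, h4⟩ := ext_one ha hb S x hx hxm
  exact ⟨y, h1, h2, h4⟩

end Pool.Agent.TH780.OG
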