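import Pool.Agent.TH780.TG.Cases

/-!
# Positions of the entries of `b` relative to `a`, and the collision lemma
-/

set_option autoImplicit false

namespace Pool.Agent.TH780.OG

open Pool.Agent.TH780.TG

variable {k : ℕ}

open Classical in
/-- the index of the largest entry of `a` which is at most `b j` -/
noncomputable def top (a b : Fin k → ℚ) (j : Fin k) : Option (Fin k) :=
  if h : (Finset.univ.filter fun i => a i ≤ b j).Nonempty then
    some ((Finset.univ.filter fun i => a i ≤ b j).max' h) else none

/-- `b j` occurs in `a` -/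
def ex (a b : Fin k → ℚ) (j : Fin k) : Prop := ∃ i, a i = b j

/-- exactness at the second level -/
def ex2 (a b : Fin k → ℚ) (j : Fin k) : Prop := ex a b j ∧ ∃ m, top a b j = some m ∧ ex a b m

lemma top_none {a b : Fin k → ℚ} {j : Fin k} (h : top a b j = none) (i : Fin k) : b j < a i := by
  classical
  unfold top at h
  split_ifs at h with h1
  by_contra hcon
  exact h1 ⟨i, Finset.mem_filter.2 ⟨Finset.mem_univ _, not_lt.1 hcon⟩⟩

lemma top_some {a b : Fin k → ℚ} {j m : Fin k} (h : top a b j = some m) :
    a m ≤ b j ∧ ∀ i, a i ≤ b j → i ≤ m := by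
  classical
  unfold top at h
  split_ifs at h with h1
  rw [Option.some.injEq] at h
  subst h
  refine ⟨(Finset.mem_filter.1 (Finset.max'_mem _ h1)).2, fun i hi => ?_⟩
  exact Finset.le_max' (Finset.univ.filter fun i => a i ≤ b j) i
    (Finset.mem_filter.2 ⟨Finset.mem_univ i, hi⟩)

lemma top_eq_none {a b : Fin k → ℚ} {j : Fin k} (h : ∀ i, b j < a i) : top a b j = none := by
  classical
  rcases h1 : top a b j with _ | m
  · rfl
  · exact absurd (top_some h1).1 (not_le.2 (h m))

lemma top_eq_some {a b : Fin k → ℚ} {j m : Fin k} (h1 : a m ≤ b j) (h2 : ∀ i, a i ≤ b j → i ≤ m) :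
    top a b j = some m := by
  rcases h3 : top a b j with _ | m'
  · exact absurd h1 (not_le.2 (top_none h3 m))
  · obtain ⟨h4, h5⟩ := top_some h3
    rw [le_antisymm (h2 m' h4) (h5 m h1)]

lemma exact_top {a b : Fin k → ℚ} (ha : StrictMono a) {j m : Fin k} (h : top a b j = some m)
    (he : ex a b j) : a m = b j := by
  obtain ⟨i, hi⟩ := he
  obtain ⟨h1, h2⟩ := top_some h
  have h3 := h2 i hi.le
  have h4 : m ≤ i := ha.le_iff_le.1 (h1.trans hi.ge)
  rw [le_antisymm h4 h3, hi]

lemma not_ex_of_none {a b : Fin k → ℚ} {j : Fin k} (h : top a b j = none) : ¬ ex a b j := by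
  rintro ⟨i, hi⟩
  exact absurd (top_none h i) (by rw [hi]; exact lt_irrefl _)

lemma not_ex2 {a b : Fin k → ℚ} {j : Fin k} (h : ¬ ex a b j) : ¬ ex2 a b j := fun h1 => h h1.1

lemma not_ex2' {a b : Fin k → ℚ} {j m : Fin k} (h : top a b j = some m) (h1 : ¬ ex a b m) :
    ¬ ex2 a b j := by
  rintro ⟨-, m', h2, h3⟩
  rw [h, Option.some.injEq] at h2
  exact h1 (h2 ▸ h3)

/-- If the type is not the type of long chains, two different positions collide at the second
level. -/
theorem collision {a b : Fin k → ℚ} (ha : StrictMono a) (hb : StrictMono b) (h : ¬ Hom a b) :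
    ∃ j j', ¬ (top a b j = top a b j' ∧ (ex a b j ↔ ex a b j')) ∧
      (top a b j).bind (top a b) = (top a b j').bind (top a b) ∧ (ex2 a b j ↔ ex2 a b j') := by
  classical
  let AR : Finset (Fin k) := Finset.univ.filter fun m => (∃ j, top a b j = some m) ∧
    ∃ i, top a b m = some i ∧ m < i
  let AL : Finset (Fin k) := Finset.univ.filter fun m => (∃ j, top a b j = some m) ∧
    (top a b m = none ∨ ∃ i, top a b m = some i ∧ i < m)
  by_cases hR : AR.Nonempty
  · obtain ⟨m, hm, hmax⟩ := AR.exists_max_image id hR
    obtain ⟨⟨j, hj⟩, i, hi, hmi⟩ := (Finset.mem_filter.1 hm).2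
    have h1 : a i < b i := lt_of_le_of_lt (top_some hi).1 (hb hmi)
    have htop : top a b i = some i := by
      rcases h2 : top a b i with _ | i2
      · exact absurd h1 (top_none h2 i).not_gt
      · have h3 : i ≤ i2 := (top_some h2).2 i h1.le
        rcases h3.eq_or_lt with h4 | h4
        · rw [h4]
        · have h5 : i ∈ AR := Finset.mem_filter.2 ⟨Finset.mem_univ _, ⟨m, hi⟩, i2, h2, h4⟩
          exact absurd (hmax i h5) (not_le.2 hmi)
    have hexi : ¬ ex a b i := fun he => absurd (exact_top ha htop he) h1.ne
    by_cases he : ex a b j ∧ ex a b m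
    · refine ⟨m, i, ?_, ?_, ?_⟩
      · rintro ⟨-, h2⟩
        exact hexi (h2.1 he.2)
      · rw [hi, htop]
      · exact iff_of_false (not_ex2' hi hexi) (not_ex2 hexi)
    · refine ⟨j, i, ?_, ?_, ?_⟩
      · rintro ⟨h2, -⟩
        rw [hj, htop, Option.some.injEq] at h2
        exact absurd h2 hmi.ne
      · rw [hj, htop]
        show top a b m = top a b i
        rw [hi, htop]
      · refine iff_of_false ?_ (not_ex2 hexi)
        rintro ⟨h2, m', h3, h4⟩
        rw [hj, Option.some.injEq] at h3
        exact he ⟨h2, h3 ▸ h4⟩
  · by_cases hL : AL.Nonempty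
    · obtain ⟨m, hm, hmin⟩ := AL.exists_min_image id hL
      obtain ⟨⟨j, hj⟩, hi⟩ := (Finset.mem_filter.1 hm).2
      rcases hi with hi | ⟨i, hi, him⟩
      · have hexm := not_ex_of_none hi
        refine ⟨j, m, ?_, ?_, ?_⟩
        · rintro ⟨h2, -⟩
          rw [hj, hi] at h2
          exact absurd h2 (by simp)
        · rw [hj, hi]
          exact hi
        · exact iff_of_false (not_ex2' hj hexm) (not_ex2 hexm)
      · have hbim : b i < b m := hb him
        have htop : top a b i = some i := by
          rcases h2 : top a b i with _ | i2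
          · have h5 : i ∈ AL := Finset.mem_filter.2 ⟨Finset.mem_univ _, ⟨m, hi⟩, Or.inl h2⟩
            exact absurd (hmin i h5) (not_le.2 him)
          · rcases lt_trichotomy i2 i with h4 | h4 | h4
            · have h5 : i ∈ AL := Finset.mem_filter.2
                ⟨Finset.mem_univ _, ⟨m, hi⟩, Or.inr ⟨i2, h2, h4⟩⟩
              exact absurd (hmin i h5) (not_le.2 him)
            · rw [h4]
            · have h6 : a i2 ≤ b m := (top_some h2).1.trans hbim.le
              exact absurd ((top_some hi).2 i2 h6) (not_le.2 h4)
        have hexm : ¬ ex a b m := by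
          intro he
          have h5 := exact_top ha hi he
          have h6 := (top_some htop).1
          rw [h5] at h6
          exact absurd hbim (not_lt.2 h6)
        refine ⟨j, m, ?_, ?_, ?_⟩
        · rintro ⟨h2, -⟩
          rw [hj, hi, Option.some.injEq] at h2
          exact absurd h2 him.ne'
        · rw [hj, hi]
          show top a b m = top a b i
          rw [hi, htop]
        · exact iff_of_false (not_ex2' hj hexm) (not_ex2 hexm)
    · have hfix : ∀ j m, top a b j = some m → top a b m = some m := by
        intro j m hj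
        rcases h2 : top a b m with _ | i
        · exact absurd ⟨m, Finset.mem_filter.2 ⟨Finset.mem_univ _, ⟨j, hj⟩, Or.inl h2⟩⟩ hL
        · rcases lt_trichotomy i m with h4 | h4 | h4
          · exact absurd ⟨m, Finset.mem_filter.2
              ⟨Finset.mem_univ _, ⟨j, hj⟩, Or.inr ⟨i, h2, h4⟩⟩⟩ hL
          · rw [h4]
          · exact absurd ⟨m, Finset.mem_filter.2
              ⟨Finset.mem_univ _, ⟨j, hj⟩, i, h2, h4⟩⟩ hR
      by_cases hd : ∀ i j, a i = b j → i = j
      · exfalso
        apply h
        refine ⟨hd, ?_⟩
        intro j hj i i' h1 h2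
        rcases h3 : top a b j with _ | m
        · exact absurd h1 (top_none h3 i).not_gt
        · have h4 := top_some h3
          have h5 := top_some (hfix j m h3)
          have him : i ≤ m := h4.2 i h1.le
          have hmi : m < i' := by
            by_contra hcon
            have h6 : a i' ≤ a m := ha.monotone (not_lt.1 hcon)
            exact absurd h2 (not_lt.2 (h6.trans h4.1))
          constructor
          · calc a i ≤ a m := ha.monotone him
              _ ≤ b m := h5.1
              _ < b i' := hb hmi
          · by_contra hcon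
            have h6 : a i' ≤ b m := (not_lt.1 hcon).trans (hb.monotone him)
            exact absurd (h5.2 i' h6) (not_le.2 hmi)
      · push Not at hd
        obtain ⟨i, j, hij, hne⟩ := hd
        have hj : top a b j = some i := by
          apply top_eq_some hij.le
          intro l hl
          rw [← hij] at hl
          exact ha.le_iff_le.1 hl
        have hi := hfix j i hj
        have hexi : ¬ ex a b i := by
          intro he
          have h5 := exact_top ha hi he
          exact hne (hb.injective (h5.symm.trans hij))
        refine ⟨j, i, ?_, ?_, ?_⟩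
        · rintro ⟨-, h2⟩
          exact hexi (h2.1 ⟨i, hij⟩)
        · rw [hj, hi]
        · exact iff_of_false (not_ex2' hj hexi) (not_ex2 hexi)

end Pool.Agent.TH780.OG
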