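import Pool.Agent.TH780.OG.Main
import Pool.Agent.TH459.ER3

/-!
# The Ramsey form, for all graphs
-/

set_option autoImplicit false

namespace Pool.Agent.TH780.OG

open Pool.Agent.TH780.TG

variable {k : ℕ}

/-- The trichotomy with binomial trees. -/
theorem trichotomy_binom (D : Set (Fin k → Fin k → Ordering)) (h N : ℕ) :
    (∀ u v : Fin k → ℚ, StrictMono u → StrictMono v → u ≠ v → ¬ RD D u v) ∨
    ∃ n0 : ℕ, ∀ n, n0 ≤ n →
      (∃ g : Fin N → Fin k → Fin n, Function.Injective g ∧ (∀ v, StrictMono (g v)) ∧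
        ∀ v w, v ≠ w → RD D (g v) (g w)) ∨
      (∃ g : BV h → Fin k → Fin n, Function.Injective g ∧ (∀ v, StrictMono (g v)) ∧
        ∀ v w, v ≠ w → (RD D (g v) (g w) ↔ badj h v w)) := by
  classical
  by_cases h1 : ∃ u v : Fin k → ℚ, StrictMono u ∧ StrictMono v ∧ u ≠ v ∧ RD D u v
  · right
    by_cases h2 : ∃ u v : Fin k → ℚ, StrictMono u ∧ StrictMono v ∧ u ≠ v ∧ RD D u v ∧ Hom u v
    · obtain ⟨u, v, hu, hv, huv, hr, hom⟩ := h2
      obtain ⟨n0, hn0⟩ := clique_embeds hu hv huv hom N
      refine ⟨n0, fun n hn => Or.inl ?_⟩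
      obtain ⟨g, g1, g2, g3⟩ := hn0 n hn
      refine ⟨g, g1, g2, ?_⟩
      intro s s' hs
      rcases lt_or_gt_of_ne hs with h3 | h3
      · exact RD_of_tp (tp_eq_of_ST (g3 s s' h3)) hr
      · exact RD_symm (RD_of_tp (tp_eq_of_ST (g3 s' s h3)) hr)
    · let C : Set ℕ := {c | ∃ u v : Fin k → ℚ, StrictMono u ∧ StrictMono v ∧ u ≠ v ∧ RD D u v ∧
        cells u v = c}
      have hC : C.Nonempty := by
        obtain ⟨u, v, hu, hv, huv, hr⟩ := h1
        exact ⟨_, u, v, hu, hv, huv, hr, rfl⟩
      obtain ⟨a, b, ha, hb, hab, hr, hcab⟩ := Nat.sInf_mem hC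
      have hmin : ∀ x y : Fin k → ℚ, StrictMono x → StrictMono y → x ≠ y → RD D x y →
          cells a b ≤ cells x y := by
        intro x y hx hy hxy hr'
        rw [hcab]
        exact Nat.sInf_le ⟨x, y, hx, hy, hxy, hr', rfl⟩
      have hhom : ∀ x y : Fin k → ℚ, StrictMono x → StrictMono y → x ≠ y → RD D x y →
          ¬ Hom x y := fun x y hx hy hxy hr' hom => h2 ⟨x, y, hx, hy, hxy, hr', hom⟩
      have hRel : Rel (fun x y => RD D x y) a b :=
        { ha := ha
          hb := hb
          rab := fun x y _ _ hst => RD_of_tp (tp_eq_of_ST hst) hr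
          nhom := hhom a b ha hb hab hr
          symm := fun x y h => RD_symm h
          min := hmin
          hom := hhom }
      obtain ⟨f, -, hf2, hf1, -, hf3, -, -⟩ := dfs hRel h {a}
        (by
          intro s hs
          rw [Finset.mem_singleton] at hs
          rw [hs]
          exact ha) a (Finset.mem_singleton_self a)
        (by
          intro u hu hne
          exact absurd (Finset.mem_singleton.1 hu) hne)
      have := bv_finite h
      obtain ⟨n0, hn0⟩ := transfer f
      refine ⟨n0, fun n hn => Or.inr ?_⟩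
      obtain ⟨g, hg⟩ := hn0 n hn
      refine ⟨g, ?_, ?_, ?_⟩
      · intro v w hvw
        apply hf1
        funext i
        apply le_antisymm
        · rw [← not_lt, ← hg w v i i, hvw]
          exact lt_irrefl _
        · rw [← not_lt, ← hg v w i i, hvw]
          exact lt_irrefl _
      · intro v i j hij
        rw [hg]
        exact hf2 _ hij
      · intro v w hvw
        have h3 : tp (g v) (g w) = tp (f v) (f w) := tp_eq_of_lt_iff hg v w
        have h4 : RD D (g v) (g w) ↔ RD D (f v) (f w) :=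
          ⟨fun h => RD_of_tp h3.symm h, fun h => RD_of_tp h3 h⟩
        rw [h4, hf3 _ _ hvw]
  · left
    intro u v hu hv huv hr
    exact h1 ⟨u, v, hu, hv, huv, hr⟩

/-- Pairs of the same type lie at the same places of two increasing `2k`-tuples. -/
theorem common_frame {n : ℕ} {x y x' y' : Fin k → Fin n} (hx : StrictMono x) (hy : StrictMono y)
    (hx' : StrictMono x') (hy' : StrictMono y') (htp : tp x y = tp x' y') :
    ∃ (a a' : Fin (2 * k) → Fin (n + 2 * k)) (p q : Fin k → Fin (2 * k)),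
      StrictMono a ∧ StrictMono a' ∧ (∀ i, a (p i) = Fin.castAdd (2 * k) (x i)) ∧
      (∀ i, a (q i) = Fin.castAdd (2 * k) (y i)) ∧
      (∀ i, a' (p i) = Fin.castAdd (2 * k) (x' i)) ∧
      ∀ i, a' (q i) = Fin.castAdd (2 * k) (y' i) := by
  classical
  have h1 : ∀ i j, (x i < y j ↔ x' i < y' j) ∧ (y j < x i ↔ y' j < x' i) := by
    intro i j
    rw [← cmp_eq_iff]
    exact congrFun (congrFun htp i) j
  have heq : ∀ i j, x i = y j → x' i = y' j := by
    intro i j hij
    obtain ⟨h2, h3⟩ := h1 i j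
    apply le_antisymm
    · rw [← not_lt, ← h3, hij]
      exact lt_irrefl _
    · rw [← not_lt, ← h2, hij]
      exact lt_irrefl _
  let ι : Fin n → Fin (n + 2 * k) := Fin.castAdd (2 * k)
  have hι : ∀ s t : Fin n, ι s < ι t ↔ s < t := fun s t => Iff.rfl
  have hιinj : Function.Injective ι := Fin.castAdd_injective n (2 * k)
  have hιv : ∀ s : Fin n, (ι s : ℕ) < n := fun s => s.2
  let X : Finset (Fin (n + 2 * k)) := Finset.univ.image fun i => ι (x i)
  let Y : Finset (Fin (n + 2 * k)) := Finset.univ.image fun i => ι (y i)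
  have hXY : (X ∪ Y).card ≤ 2 * k := by
    have h2 : X.card ≤ k := by
      have := Finset.card_image_le (s := (Finset.univ : Finset (Fin k))) (f := fun i => ι (x i))
      rwa [Finset.card_univ, Fintype.card_fin] at this
    have h3 : Y.card ≤ k := by
      have := Finset.card_image_le (s := (Finset.univ : Finset (Fin k))) (f := fun i => ι (y i))
      rwa [Finset.card_univ, Fintype.card_fin] at this
    have := Finset.card_union_le X Y
    omega
  let top' : Finset (Fin (n + 2 * k)) := Finset.univ.image fun j : Fin (2 * k) => Fin.natAdd n j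
  have htop : top'.card = 2 * k := by
    rw [Finset.card_image_of_injective _ (Fin.natAdd_injective (2 * k) n), Finset.card_univ,
      Fintype.card_fin]
  obtain ⟨T, hT, hTc⟩ := Finset.exists_subset_card_eq
    (s := top') (n := 2 * k - (X ∪ Y).card) (by omega)
  have hTn : ∀ t ∈ T, n ≤ (t : ℕ) := by
    intro t ht
    obtain ⟨j, -, rfl⟩ := Finset.mem_image.1 (hT ht)
    simp
  have hdisj : Disjoint (X ∪ Y) T := by
    rw [Finset.disjoint_left]
    intro z hz hzT
    have h2 := hTn z hzT
    rcases Finset.mem_union.1 hz with h3 | h3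
    · obtain ⟨i, -, rfl⟩ := Finset.mem_image.1 h3
      have := hιv (x i)
      omega
    · obtain ⟨i, -, rfl⟩ := Finset.mem_image.1 h3
      have := hιv (y i)
      omega
  let Z : Finset (Fin (n + 2 * k)) := (X ∪ Y) ∪ T
  have hZc : Z.card = 2 * k := by
    rw [Finset.card_union_of_disjoint hdisj, hTc]
    omega
  let ε : Fin (n + 2 * k) → Fin (n + 2 * k) := fun z =>
    if h : ∃ i, z = ι (x i) then ι (x' h.choose) else
      if h' : ∃ j, z = ι (y j) then ι (y' h'.choose) else z
  have hεx : ∀ i, ε (ι (x i)) = ι (x' i) := by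
    intro i
    have h : ∃ i', ι (x i) = ι (x i') := ⟨i, rfl⟩
    have h2 : ε (ι (x i)) = ι (x' h.choose) := dif_pos h
    have h3 : i = h.choose := hx.injective (hιinj h.choose_spec)
    rw [h2, ← h3]
  have hεy : ∀ j, ε (ι (y j)) = ι (y' j) := by
    intro j
    by_cases h : ∃ i, ι (y j) = ι (x i)
    · have h2 : ε (ι (y j)) = ι (x' h.choose) := dif_pos h
      have h3 : y j = x h.choose := hιinj h.choose_spec
      rw [h2, heq _ _ h3.symm]
    · have h' : ∃ j', ι (y j) = ι (y j') := ⟨j, rfl⟩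
      have h2 : ε (ι (y j)) = ι (y' h'.choose) := by
        show (if h : ∃ i, ι (y j) = ι (x i) then ι (x' h.choose) else
          if h' : ∃ j', ι (y j) = ι (y j') then ι (y' h'.choose) else ι (y j)) = _
        rw [dif_neg h, dif_pos h']
      have h3 : j = h'.choose := hy.injective (hιinj h'.choose_spec)
      rw [h2, ← h3]
  have hεT : ∀ t ∈ T, ε t = t := by
    intro t ht
    have h2 := hTn t ht
    have h : ¬ ∃ i, t = ι (x i) := by
      rintro ⟨i, rfl⟩
      have := hιv (x i)
      omega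
    have h' : ¬ ∃ i, t = ι (y i) := by
      rintro ⟨i, rfl⟩
      have := hιv (y i)
      omega
    show (if h : ∃ i, t = ι (x i) then ι (x' h.choose) else
          if h' : ∃ j', t = ι (y j') then ι (y' h'.choose) else t) = t
    rw [dif_neg h, dif_neg h']
  have hZcases : ∀ z ∈ Z, (∃ i, z = ι (x i)) ∨ (∃ j, z = ι (y j)) ∨ z ∈ T := by
    intro z hz
    rcases Finset.mem_union.1 hz with h3 | h3
    · rcases Finset.mem_union.1 h3 with h3 | h3
      · obtain ⟨i, -, rfl⟩ := Finset.mem_image.1 h3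
        exact Or.inl ⟨i, rfl⟩
      · obtain ⟨i, -, rfl⟩ := Finset.mem_image.1 h3
        exact Or.inr (Or.inl ⟨i, rfl⟩)
    · exact Or.inr (Or.inr h3)
  have hεmono : ∀ z ∈ Z, ∀ z2 ∈ Z, z < z2 → ε z < ε z2 := by
    intro z hz z2 hz2 hlt
    rcases hZcases z hz with ⟨i, rfl⟩ | ⟨i, rfl⟩ | hzT
    · rcases hZcases z2 hz2 with ⟨j, rfl⟩ | ⟨j, rfl⟩ | hzT2
      · rw [hεx, hεx, hι]
        exact hx' (hx.lt_iff_lt.1 hlt)
      · rw [hεx, hεy, hι]
        exact (h1 i j).1.1 hlt
      · rw [hεx, hεT z2 hzT2, Fin.lt_def]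
        have h2 := hιv (x' i)
        have h3 := hTn z2 hzT2
        omega
    · rcases hZcases z2 hz2 with ⟨j, rfl⟩ | ⟨j, rfl⟩ | hzT2
      · rw [hεx, hεy, hι]
        exact (h1 j i).2.1 hlt
      · rw [hεy, hεy, hι]
        exact hy' (hy.lt_iff_lt.1 hlt)
      · rw [hεy, hεT z2 hzT2, Fin.lt_def]
        have h2 := hιv (y' i)
        have h3 := hTn z2 hzT2
        omega
    · have h2 := hTn z hzT
      rcases hZcases z2 hz2 with ⟨j, rfl⟩ | ⟨j, rfl⟩ | hzT2
      · have h3 := hιv (x j)
        rw [Fin.lt_def] at hlt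
        omega
      · have h3 := hιv (y j)
        rw [Fin.lt_def] at hlt
        omega
      · rw [hεT z hzT, hεT z2 hzT2]
        exact hlt
  let a : Fin (2 * k) → Fin (n + 2 * k) := Z.orderEmbOfFin hZc
  have ha : StrictMono a := (Z.orderEmbOfFin hZc).strictMono
  have haZ : ∀ i, a i ∈ Z := fun i => Finset.orderEmbOfFin_mem _ _ _
  have hrange : ∀ z ∈ Z, ∃ i, a i = z := by
    intro z hz
    have h2 : z ∈ Set.range (Z.orderEmbOfFin hZc) := by
      rw [Finset.range_orderEmbOfFin]
      exact hz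
    obtain ⟨i, hi⟩ := h2
    exact ⟨i, hi⟩
  have hxZ : ∀ i, ι (x i) ∈ Z := fun i => Finset.mem_union_left _
    (Finset.mem_union_left _ (Finset.mem_image.2 ⟨i, Finset.mem_univ _, rfl⟩))
  have hyZ : ∀ i, ι (y i) ∈ Z := fun i => Finset.mem_union_left _
    (Finset.mem_union_right _ (Finset.mem_image.2 ⟨i, Finset.mem_univ _, rfl⟩))
  choose p hp using fun i => hrange _ (hxZ i)
  choose q hq using fun i => hrange _ (hyZ i)
  refine ⟨a, fun i => ε (a i), p, q, ha, ?_, hp, hq, ?_, ?_⟩
  · intro i j hij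
    exact hεmono _ (haZ i) _ (haZ j) (ha hij)
  · intro i
    show ε (a (p i)) = ι (x' i)
    rw [hp, hεx]
  · intro i
    show ε (a (q i)) = ι (y' i)
    rw [hq, hεy]

end Pool.Agent.TH780.OG
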