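import Pool.Agent.TH780.OG.Ram

/-!
# The Ramsey form: the core
-/

set_option autoImplicit false

namespace Pool.Agent.TH780.OG

open Pool.Agent.TH780.TG

universe u

theorem ram_core (k w n h : ℕ) : ∃ N : ℕ, ∀ (V : Type u) (H : SimpleGraph V),
    H.CliqueFree (w + 1) →
    (¬ ∃ g : BV h → V, Function.Injective g ∧ ∀ s t, H.Adj (g s) (g t) ↔ badj h s t) →
    ∀ ψ : (Fin k → ℕ) → V, ∃ e : Fin n → ℕ, StrictMono e ∧ (∀ i, e i < N) ∧
      ∀ x y : Fin k → Fin n, StrictMono x → StrictMono y →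
        ¬ H.Adj (ψ fun i => e (x i)) (ψ fun i => e (y i)) := by
  classical
  have hthr : ∀ (D : Set (Fin k → Fin k → Ordering)), ∃ n0 : ℕ, ∀ n, n0 ≤ n →
      (∀ u v : Fin k → ℚ, StrictMono u → StrictMono v → u ≠ v → ¬ RD D u v) ∨
      (∃ g : Fin (w + 1) → Fin k → Fin n, Function.Injective g ∧ (∀ v, StrictMono (g v)) ∧
        ∀ v w, v ≠ w → RD D (g v) (g w)) ∨
      (∃ g : BV (h + 1) → Fin k → Fin n, Function.Injective g ∧ (∀ v, StrictMono (g v)) ∧
        ∀ v w, v ≠ w → (RD D (g v) (g w) ↔ badj (h + 1) v w)) := by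
    intro D
    rcases trichotomy_binom D (h + 1) (w + 1) with h1 | ⟨n0, h1⟩
    · exact ⟨0, fun n _ => Or.inl h1⟩
    · exact ⟨n0, fun n hn => Or.inr (h1 n hn)⟩
  choose n0 hn0 using hthr
  let M : ℕ := n + ∑ D : Set (Fin k → Fin k → Ordering), n0 D
  have hM : ∀ D : Set (Fin k → Fin k → Ordering), n0 D ≤ M := by
    intro D
    calc n0 D ≤ ∑ D : Set (Fin k → Fin k → Ordering), n0 D :=
          Finset.single_le_sum (f := fun D' => n0 D') (fun _ _ => Nat.zero_le _)
            (Finset.mem_univ D)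
      _ ≤ M := Nat.le_add_left _ _
  obtain ⟨N, hN⟩ := Pool.Agent.TH459.ER.ramsey_fin
    (Set ((Fin k → Fin (2 * k)) × (Fin k → Fin (2 * k)))) (2 * k) (M + 2 * k)
  refine ⟨N, fun V H hcl hB ψ => ?_⟩
  obtain ⟨h0, hh1, hh2, hh3⟩ := hN fun t => {pq | H.Adj (ψ (t ∘ pq.1)) (ψ (t ∘ pq.2))}
  -- the relation on increasing tuples
  let ι : Fin M → Fin (M + 2 * k) := Fin.castAdd (2 * k)
  let R : (Fin k → Fin M) → (Fin k → Fin M) → Prop := fun x y =>
    H.Adj (ψ fun i => h0 (ι (x i))) (ψ fun i => h0 (ι (y i)))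
  have hRsymm : ∀ x y, R x y → R y x := fun x y hr => hr.symm
  have hRirr : ∀ x, ¬ R x x := fun x hr => hr.ne rfl
  have hinv : ∀ x y x' y' : Fin k → Fin M, StrictMono x → StrictMono y → StrictMono x' →
      StrictMono y' → tp x y = tp x' y' → R x y → R x' y' := by
    intro x y x' y' hx hy hx' hy' htp hr
    obtain ⟨a, a', p, q, ha, ha', h1, h2, h3, h4⟩ := common_frame hx hy hx' hy' htp
    have h5 := hh3 a a' ha ha'
    have e1 : (fun i => h0 (ι (x i))) = (h0 ∘ a) ∘ p := by
      funext i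
      show h0 (ι (x i)) = h0 (a (p i))
      rw [h1]
    have e2 : (fun i => h0 (ι (y i))) = (h0 ∘ a) ∘ q := by
      funext i
      show h0 (ι (y i)) = h0 (a (q i))
      rw [h2]
    have e3 : (fun i => h0 (ι (x' i))) = (h0 ∘ a') ∘ p := by
      funext i
      show h0 (ι (x' i)) = h0 (a' (p i))
      rw [h3]
    have e4 : (fun i => h0 (ι (y' i))) = (h0 ∘ a') ∘ q := by
      funext i
      show h0 (ι (y' i)) = h0 (a' (q i))
      rw [h4]
    have h6 : (p, q) ∈ {pq : (Fin k → Fin (2 * k)) × (Fin k → Fin (2 * k)) |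
        H.Adj (ψ ((h0 ∘ a) ∘ pq.1)) (ψ ((h0 ∘ a) ∘ pq.2))} := by
      show H.Adj (ψ ((h0 ∘ a) ∘ p)) (ψ ((h0 ∘ a) ∘ q))
      rw [← e1, ← e2]
      exact hr
    rw [h5] at h6
    have h7 : H.Adj (ψ ((h0 ∘ a') ∘ p)) (ψ ((h0 ∘ a') ∘ q)) := h6
    rw [← e3, ← e4] at h7
    exact h7
  let D : Set (Fin k → Fin k → Ordering) :=
    {c | ∃ x y : Fin k → Fin M, StrictMono x ∧ StrictMono y ∧ R x y ∧ tp x y = c}
  have hD : ∀ x y : Fin k → Fin M, StrictMono x → StrictMono y → (RD D x y ↔ R x y) := by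
    intro x y hx hy
    constructor
    · rintro (⟨x', y', hx', hy', hr, heq⟩ | ⟨x', y', hx', hy', hr, heq⟩)
      · exact hinv _ _ _ _ hx' hy' hx hy heq hr
      · exact hRsymm _ _ (hinv _ _ _ _ hx' hy' hy hx heq hr)
    · intro hr
      exact Or.inl ⟨x, y, hx, hy, hr, rfl⟩
  rcases hn0 D M (hM D) with h1 | ⟨g, g1, g2, g3⟩ | ⟨g, g1, g2, g3⟩
  · -- no edges at all
    have hno : ∀ x y : Fin k → Fin M, StrictMono x → StrictMono y → ¬ R x y := by
      intro x y hx hy hr
      let a : Fin k → ℚ := fun i => ((x i : ℕ) : ℚ)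
      let b : Fin k → ℚ := fun i => ((y i : ℕ) : ℚ)
      have ha : StrictMono a := by
        intro i j hij
        have h2 : (x i : ℕ) < (x j : ℕ) := hx hij
        show ((x i : ℕ) : ℚ) < ((x j : ℕ) : ℚ)
        exact_mod_cast h2
      have hb : StrictMono b := by
        intro i j hij
        have h2 : (y i : ℕ) < (y j : ℕ) := hy hij
        show ((y i : ℕ) : ℚ) < ((y j : ℕ) : ℚ)
        exact_mod_cast h2
      have hab : a ≠ b := by
        intro h
        have hxy : x = y := by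
          funext j
          have h2 : ((x j : ℕ) : ℚ) = ((y j : ℕ) : ℚ) := congrFun h j
          have h3 : (x j : ℕ) = (y j : ℕ) := by exact_mod_cast h2
          exact Fin.ext h3
        rw [hxy] at hr
        exact hRirr _ hr
      have htp : tp a b = tp x y := by
        funext i j
        show cmp ((x i : ℕ) : ℚ) ((y j : ℕ) : ℚ) = cmp (x i) (y j)
        rw [cmp_eq_iff, Nat.cast_lt, Nat.cast_lt]
        exact ⟨Iff.rfl, Iff.rfl⟩
      exact h1 a b ha hb hab (RD_of_tp htp ((hD x y hx hy).2 hr))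
    have hnM : n ≤ M := Nat.le_add_right _ _
    refine ⟨fun i => h0 (ι (Fin.castLE hnM i)), ?_, fun i => hh2 _, ?_⟩
    · intro i j hij
      exact hh1 hij
    · intro x y hx hy
      exact hno (fun i => Fin.castLE hnM (x i)) (fun i => Fin.castLE hnM (y i))
        (fun i j hij => hx hij) (fun i j hij => hy hij)
  · -- a clique
    exfalso
    let G : Fin (w + 1) → V := fun s => ψ fun i => h0 (ι (g s i))
    have hG : ∀ s t, s ≠ t → H.Adj (G s) (G t) := fun s t hst =>
      (hD _ _ (g2 s) (g2 t)).1 (g3 s t hst)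
    have hGinj : Function.Injective G := by
      intro s t hst
      by_contra hne
      exact (hG s t hne).ne hst
    refine hcl (Finset.univ.image G) ⟨?_, ?_⟩
    · intro p hp q hq hpq
      rw [Finset.mem_coe, Finset.mem_image] at hp hq
      obtain ⟨v, -, rfl⟩ := hp
      obtain ⟨w, -, rfl⟩ := hq
      exact hG v w fun h => hpq (congrArg G h)
    · rw [Finset.card_image_of_injective _ hGinj, Finset.card_univ, Fintype.card_fin]
  · -- a binomial tree
    exfalso
    obtain ⟨j, l, p1, p2, -, p4, p5⟩ := pendant h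
    let G : BV h → V := fun s => ψ fun i => h0 (ι (g (j s) i))
    have hG : ∀ s t : BV (h + 1), s ≠ t → (R (g s) (g t) ↔ badj (h + 1) s t) := by
      intro s t hst
      rw [← hD _ _ (g2 s) (g2 t)]
      exact g3 s t hst
    apply hB
    refine ⟨G, ?_, ?_⟩
    · intro s t hst
      by_contra hne
      have h2 : R (g (l s)) (g (j s)) := (hG _ _ (p2 s s)).2 ((p5 s s).2 rfl)
      have h3 : H.Adj (ψ fun i => h0 (ι (g (l s) i))) (G s) := h2
      rw [hst] at h3
      have h4 : R (g (l s)) (g (j t)) := h3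
      exact hne ((p5 s t).1 ((hG _ _ (p2 s t)).1 h4))
    · intro s t
      by_cases hst : s = t
      · subst hst
        exact iff_of_false (fun h => h.ne rfl) (badj_irrefl h s)
      · have h2 := hG (j s) (j t) fun h => hst (p1 h)
        rw [p4] at h2
        exact h2

end Pool.Agent.TH780.OG
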